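import Pool.Agent.Y778.NK.Inj2
import Pool.Agent.H26R2.Bass.Padic

/-!
# Classes whose traces vanish at the `p`-singular elements are `p`-integral
-/

open Matrix

namespace Pool.Agent.Y778.NK

open MonoidAlgebra Pool.Agent.Y69 Pool.Agent.Y69.StepC
open Pool.Agent.H23R2.Cyc (ell)

noncomputable section

section gen

variable {R : Type} [CommRing R] {G : Type} [Group G]

/-- traces are given by an element of the group ring -/
theorem T_repr (x : K0 (MonoidAlgebra R G)) :
    ∃ X : MonoidAlgebra R G, ∀ h : G → ℤ, IsCls h → T R h x = ell (fun g => (h g : R)) X := by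
  induction x using K0.induction with
  | hadd x y hx hy =>
    obtain ⟨X, hX⟩ := hx
    obtain ⟨Y, hY⟩ := hy
    exact ⟨X + Y, fun h hh => by rw [map_add, map_add, hX h hh, hY h hh]⟩
  | hneg x hx =>
    obtain ⟨X, hX⟩ := hx
    exact ⟨-X, fun h hh => by rw [map_neg, map_neg, hX h hh]⟩
  | hcl n e he =>
    refine ⟨∑ i, e i i, fun h hh => ?_⟩
    rw [T_cl0 hh, map_sum]
    rfl

theorem T_add_fun {h h' : G → ℤ} (hh : IsCls h) (hh' : IsCls h') (x : K0 (MonoidAlgebra R G)) :
    T R (fun g => h g + h' g) x = T R h x + T R h' x := by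
  have h3 : IsCls fun g => h g + h' g := fun x y => by
    show h (x * y) + h' (x * y) = h (y * x) + h' (y * x)
    rw [hh, hh']
  obtain ⟨X, hX⟩ := T_repr x
  rw [hX _ hh, hX _ hh', hX _ h3]
  have h4 : ∀ f : G → R, ell f X = ∑ g ∈ X.coeff.support, X.coeff g * f g := fun f =>
    Pool.Agent.H23R2.Cyc.ell_eq_sum f _ X fun g hg => Finsupp.mem_support_iff.2 hg
  rw [h4, h4, h4, ← Finset.sum_add_distrib]
  refine Finset.sum_congr rfl fun g _ => ?_
  push_cast
  ring

theorem cind_cast' (g y : G) :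
    ((cind g y : ℤ) : R) = Pool.Agent.H26R2.Bass.ind R g y := by
  classical
  unfold cind Pool.Agent.H26R2.Bass.ind
  by_cases h : IsConj g y
  · rw [if_pos h, if_pos h.symm, Int.cast_one]
  · rw [if_neg h, if_neg fun h' => h h'.symm, Int.cast_zero]

/-- the indicator functions of classes suffice -/
theorem T_of_cind {h : G → ℤ} (hh : IsCls h) (x : K0 (MonoidAlgebra R G))
    (h0 : ∀ g, h g ≠ 0 → T R (cind g) x = 0) : T R h x = 0 := by
  obtain ⟨X, hX⟩ := T_repr x
  rw [hX _ hh]
  apply Pool.Agent.H26R2.Bass.ell_class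
  · intro a b hab
    rw [hh.conj hab]
  · intro g hg
    have h1 := h0 g (fun h2 => hg (by rw [h2, Int.cast_zero]))
    rw [hX _ (cind_cls g)] at h1
    rw [← h1]
    congr 2
    funext y
    exact (cind_cast' g y).symm

theorem sy_coef {S : Type} [CommRing S] (θ : R →+* S) {C : Type} [Group C] [Finite C] (φ : C →* G)
    (w : K0 (MonoidAlgebra R C)) :
    sy S φ (K0.map (mapRingHom C θ) w) = cc θ (sy R φ w) := by
  rw [sy_apply, sy_apply, cc_ci, K0map_comp, K0map_comp, mapRing_mapDomain]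

end gen

section reg

variable {p : ℕ} [hp : Fact p.Prime] {G : Type} [Group G]

/-- `p`-singular elements -/
def Sg (p : ℕ) {G : Type} [Group G] (g : G) : Prop := 0 < orderOf g ∧ p ∣ orderOf g

theorem map_cl1 {S S' : Type} [Ring S] [Ring S'] (f : S →+* S') (e : S) (he : e * e = e) :
    K0.map f (cl1 e he) = cl1 (f e) (by rw [← map_mul, he]) := by
  unfold cl1
  rw [K0map_cl0]
  rfl

theorem int_surj (hI : S_Int) (hG : S_Gen) (D : Type) [CommGroup D] [Finite D]
    (hD : ¬ p ∣ Nat.card D) (v : K0 (MonoidAlgebra ℚ_[p] D)) :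
    ∃ w : K0 (MonoidAlgebra ℤ_[p] D), K0.map (mapRingHom D PadicInt.Coe.ringHom) w = v := by
  have h1 := hG ℚ_[p] D v
  have h2 : v ∈ (K0.map (mapRingHom D (PadicInt.Coe.ringHom (p := p)))).range := by
    refine (AddSubgroup.closure_le _).2 ?_ h1
    rintro _ ⟨e, he, rfl⟩
    obtain ⟨e', he', h3⟩ := hI p D hD e he
    refine ⟨cl1 e' he', ?_⟩
    rw [map_cl1]
    congr 1
  exact h2

theorem exists_reg (C : Type) [CommGroup C] [Finite C] : ∃ D : Subgroup C, ¬ p ∣ Nat.card D ∧
    (∀ c : C, c ∈ D → ¬ Sg p c) ∧ ∀ c : C, c ∉ D → Sg p c := by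
  obtain ⟨a, m, hm, hn⟩ := Nat.exists_eq_pow_mul_and_not_dvd (Nat.card_pos (α := C)).ne' p
    hp.out.ne_one
  have hord : ∀ c : C, c ^ m = 1 → ¬ p ∣ orderOf c := fun c hc h =>
    hm (h.trans (orderOf_dvd_of_pow_eq_one hc))
  refine ⟨(powMonoidHom m : C →* C).ker, ?_, ?_, ?_⟩
  · intro h
    obtain ⟨d, hd⟩ := exists_prime_orderOf_dvd_card' p h
    have h1 : (d : C) ^ m = 1 := d.2
    apply hord _ h1
    rw [Subgroup.orderOf_coe, hd]
  · intro c hc h
    exact hord c hc h.2
  · intro c hc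
    refine ⟨orderOf_pos c, ?_⟩
    by_contra h
    apply hc
    show c ^ m = 1
    have h1 : orderOf c ∣ p ^ a * m := by
      rw [← hn]
      exact orderOf_dvd_natCard c
    have h2 : (orderOf c).Coprime (p ^ a) :=
      Nat.Coprime.pow_right a ((hp.out.coprime_iff_not_dvd.2 h).symm)
    exact orderOf_dvd_iff_pow_eq_one.1 (h2.dvd_of_dvd_mul_left h1)

theorem sg_inj {C : Type} [Group C] (φ : C →* G) (hφ : Function.Injective φ) (c : C) :
    Sg p (φ c) ↔ Sg p c := by
  unfold Sg
  rw [orderOf_injective φ hφ]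

/-- the decomposition into a `p`-integral part and a part with `p`-singular traces -/
theorem decomp (hI : S_Int) (hG : S_Gen) {z : ColK ℚ_[p] G} (hz : z ∈ SE ℚ_[p] G) :
    ∃ (M : ℕ) (w : ColK ℤ_[p] G) (z2 : ColK ℚ_[p] G), 0 < M ∧
      M • z = cc PadicInt.Coe.ringHom w + z2 ∧
      (∀ h : G → ℤ, IsCls h → (∀ g, h g ≠ 0 → Sg p g) → TC ℚ_[p] h (cc PadicInt.Coe.ringHom w) = 0) ∧
      (∀ h : G → ℤ, IsCls h → (∀ g, h g ≠ 0 → ¬ Sg p g) → TC ℚ_[p] h z2 = 0) := by
  unfold SE at hz
  induction hz using AddSubgroup.closure_induction with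
  | mem z hz =>
    obtain ⟨C, i1, i2, φ, hφ, u, rfl⟩ := hz
    have := Fintype.ofFinite C
    obtain ⟨D, hD, hD1, hD2⟩ := exists_reg (p := p) C
    have := Fintype.ofFinite D
    obtain ⟨k, v, hk, hv⟩ := res_exists D u
    obtain ⟨w, hw⟩ := int_surj hI hG D hD v
    have e1 : cc PadicInt.Coe.ringHom (sy ℤ_[p] (φ.comp D.subtype) w) =
        sy ℚ_[p] (φ.comp D.subtype) v := by
      rw [← hw, sy_coef]
    refine ⟨k, sy ℤ_[p] (φ.comp D.subtype) w, k • sy ℚ_[p] φ u -
      sy ℚ_[p] (φ.comp D.subtype) v, hk, ?_, ?_, ?_⟩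
    · rw [e1]; abel
    · intro h hh hs
      rw [e1, TC_sy _ hh, T_eq_sum]
      refine Finset.sum_eq_zero fun d _ => ?_
      have h1 : h (φ.comp D.subtype d) = 0 := by
        by_contra h2
        exact hD1 d d.2 ((sg_inj φ hφ _).1 (hs _ h2))
      rw [h1, Int.cast_zero, mul_zero]
    · intro h hh hs
      rw [map_sub, map_nsmul, TC_sy _ hh, TC_sy _ hh, T_eq_sum, T_eq_sum, nsmul_eq_mul,
        sub_eq_zero, Finset.mul_sum]
      symm
      have h3 : ∀ c : C, c ∉ D → h (φ c) = 0 := by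
        intro c hc
        by_contra h2
        exact hs _ h2 ((sg_inj φ hφ _).2 (hD2 c hc))
      have h4 : ∀ d : D, bb ℚ_[p] v d * ((h (φ.comp D.subtype d) : ℤ) : ℚ_[p]) =
          (k : ℚ_[p]) * (bb ℚ_[p] u (d : C) * ((h (φ (d : C)) : ℤ) : ℚ_[p])) := by
        intro d
        rw [hv d, mul_assoc]
        rfl
      rw [Finset.sum_congr rfl fun d _ => h4 d]
      classical
      rw [← Finset.sum_subset (Finset.subset_univ (Finset.univ.filter fun c : C => c ∈ D))]
      · rw [← Finset.sum_subtype (Finset.univ.filter fun c : C => c ∈ D) (by simp)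
          (fun c : C => (k : ℚ_[p]) * (bb ℚ_[p] u c * ((h (φ c) : ℤ) : ℚ_[p])))]
      · intro c _ hc
        rw [h3 c (by simpa using hc), Int.cast_zero, mul_zero, mul_zero]
  | zero => exact ⟨1, 0, 0, one_pos, by simp, fun h _ _ => by simp, fun h _ _ => by simp⟩
  | add x y _ _ hx hy =>
    obtain ⟨M, w, z, hM, h1, h2, h3⟩ := hx
    obtain ⟨N, w', z', hN, h1', h2', h3'⟩ := hy
    refine ⟨M * N, N • w + M • w', N • z + M • z', Nat.mul_pos hM hN, ?_, ?_, ?_⟩
    · rw [smul_add, mul_comm M N, mul_smul, h1, mul_comm N M, mul_smul, h1', map_add, map_nsmul,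
        map_nsmul, smul_add, smul_add]
      abel
    · intro h hh hs
      rw [map_add, map_add, map_nsmul, map_nsmul, map_nsmul, map_nsmul, h2 h hh hs, h2' h hh hs,
        smul_zero, smul_zero, add_zero]
    · intro h hh hs
      rw [map_add, map_nsmul, map_nsmul, h3 h hh hs, h3' h hh hs, smul_zero, smul_zero, add_zero]
  | neg x _ hx =>
    obtain ⟨M, w, z, hM, h1, h2, h3⟩ := hx
    refine ⟨M, -w, -z, hM, ?_, ?_, ?_⟩
    · rw [smul_neg, h1, map_neg]; abel
    · intro h hh hs
      rw [map_neg, map_neg, h2 h hh hs, neg_zero]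
    · intro h hh hs
      rw [map_neg, h3 h hh hs, neg_zero]

/-- **Integrality.** A class in `colim K₀(ℚ_p[H])` whose traces vanish at the `p`-singular
elements has a multiple coming from `colim K₀(ℤ_p[H])`. -/
theorem integral (hA : S_Artin) (hT : S_Tors) (hI : S_Int) (hG : S_Gen) (y : ColK ℚ_[p] G)
    (h0 : ∀ g : G, Sg p g → TC ℚ_[p] (cind g) y = 0) :
    ∃ (m : ℕ) (w : ColK ℤ_[p] G), 0 < m ∧ m • y = cc PadicInt.Coe.ringHom w := by
  classical
  obtain ⟨k, hk, h1⟩ := cover hA (R := ℚ_[p])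
    (fun n hn => isUnit_iff_ne_zero.2 (by exact_mod_cast hn.ne')) y
  obtain ⟨M, w, z2, hM, h2, h3, h4⟩ := decomp hI hG h1
  have h5 : ∀ h : G → ℤ, IsCls h → TC ℚ_[p] h z2 = 0 := by
    intro h hh
    let h' : G → ℤ := fun g => if Sg p g then h g else 0
    let h'' : G → ℤ := fun g => if Sg p g then 0 else h g
    have hsg : ∀ x y : G, Sg p (x * y) ↔ Sg p (y * x) := by
      intro x y
      have : orderOf (x * y) = orderOf (y * x) := by
        have h6 : x * y = y⁻¹ * (y * x) * y := by group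
        rw [h6]
        have h7 := (MulAut.conj y⁻¹).orderOf_eq (y * x)
        rw [MulAut.conj_apply, inv_inv] at h7
        exact h7
      unfold Sg
      rw [this]
    have c1 : IsCls h' := by
      intro x y
      show (if Sg p (x * y) then h (x * y) else 0) = if Sg p (y * x) then h (y * x) else 0
      simp only [hsg x y, hh x y]
    have c2 : IsCls h'' := by
      intro x y
      show (if Sg p (x * y) then 0 else h (x * y)) = if Sg p (y * x) then 0 else h (y * x)
      simp only [hsg x y, hh x y]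
    have e1 : h = fun g => h' g + h'' g := by
      funext g
      show h g = (if Sg p g then h g else 0) + if Sg p g then 0 else h g
      split_ifs <;> simp
    have s1 : ∀ g, h' g ≠ 0 → Sg p g := by
      intro g hg
      by_contra h6
      exact hg (if_neg h6)
    have s2 : ∀ g, h'' g ≠ 0 → ¬ Sg p g := by
      intro g hg h6
      exact hg (if_pos h6)
    have e2 : TC ℚ_[p] h z2 = TC ℚ_[p] h' z2 + TC ℚ_[p] h'' z2 := by
      conv_lhs => rw [e1]
      exact T_add_fun c1 c2 _
    rw [e2, h4 h'' c2 s2, add_zero]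
    have e3 : z2 = M • k • y - cc PadicInt.Coe.ringHom w := by rw [h2]; abel
    have e4 : TC ℚ_[p] h' y = 0 := by
      apply T_of_cind c1
      intro g hg
      exact h0 g (s1 g hg)
    rw [e3, map_sub, map_nsmul, map_nsmul, e4, h3 h' c1 s1, smul_zero, smul_zero, sub_zero]
  obtain ⟨l, hl, h6⟩ := inj hA hT z2 h5
  refine ⟨l * (M * k), l • w, Nat.mul_pos hl (Nat.mul_pos hM hk), ?_⟩
  rw [mul_smul, mul_smul, h2, smul_add, h6, add_zero, map_nsmul]

end reg

end

end Pool.Agent.Y778.NK
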