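import Pool.Agent.Y778.NK.Stm
import Pool.Agent.H26R2.Bass.Main

/-!
# Traces over the `p`-adic integers vanish at `p`-singular elements
-/

open Matrix

namespace Pool.Agent.Y778.NK

open MonoidAlgebra Pool.Agent.Y69
open Pool.Agent.H23R2.Cyc (ell tf tf_apply)

theorem cind_cast {R : Type} [CommRing R] {G : Type} [Group G] (g y : G) :
    ((cind g y : ℤ) : R) = Pool.Agent.H26R2.Bass.ind R g y := by
  classical
  unfold cind Pool.Agent.H26R2.Bass.ind
  by_cases h : IsConj g y
  · rw [if_pos h, if_pos h.symm, Int.cast_one]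
  · rw [if_neg h, if_neg fun h' => h h'.symm, Int.cast_zero]

theorem sing : S_Sing := by
  intro p hp G _ x g h0 hpg
  have hu : ¬ IsUnit ((orderOf g : ℕ) : ℤ_[p]) := by
    rw [PadicInt.isUnit_iff]
    exact (PadicInt.norm_natCast_lt_one_iff.2 hpg).ne
  induction x using K0.induction with
  | hadd x y hx hy => rw [map_add, hx, hy, add_zero]
  | hneg x hx => rw [map_neg, hx, neg_zero]
  | hcl n e he =>
    rw [T_cl0 (cind_cls g)]
    have h1 := Pool.Agent.H26R2.Bass.tf_zero_of_finite e he g h0.ne' hu
    rw [tf_apply] at h1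
    unfold hs
    rw [← h1]
    refine Finset.sum_congr rfl fun i _ => ?_
    congr 1
    congr 1
    funext y
    exact cind_cast g y

end Pool.Agent.Y778.NK
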