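import Pool.Agent.Y778.NK.KMDef
import Pool.Agent.Y778.NK.Reg
import Pool.Agent.Y778.NK.Sing

/-!
# The assembly map in degree `-1` is rationally injective
-/

open Matrix

namespace Pool.Agent.Y778.NK

open MonoidAlgebra Pool.Agent.Y69
open Pool.Agent.H23R2.Cyc (ell)

noncomputable section

open Classical

variable (P : Set Nat.Primes)

/-- The colimit of the groups `K₋₁` of the finite subgroups. -/
abbrev ColKM (G : Type) [Group G] : Type := Colim (G := G) (fun H => KM P H) (fun φ => KM.map P φ)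

variable {P}

/-- local `K₀` -/
abbrev LQ (P : Set Nat.Primes) (G : Type) [Group G] (p : P) : Type :=
  K0 (MonoidAlgebra ℚ_[((p : Nat.Primes) : ℕ)] G)

/-- local colimits -/
abbrev LC (P : Set Nat.Primes) (G : Type) [Group G] (p : P) : Type :=
  ColK ℚ_[((p : Nat.Primes) : ℕ)] G

/-- projection -/
def km (P : Set Nat.Primes) (G : Type) [Group G] :
    (Π₀ p : P, K0 (MonoidAlgebra ℚ_[((p : Nat.Primes) : ℕ)] G)) →+ KM P G :=
  QuotientAddGroup.mk' (Glob P G)

theorem km_surj {G : Type} [Group G] (x : KM P G) : ∃ z, km P G z = x :=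
  QuotientAddGroup.mk'_surjective _ x

theorem km_zero_iff {G : Type} [Group G]
    (z : Π₀ p : P, K0 (MonoidAlgebra ℚ_[((p : Nat.Primes) : ℕ)] G)) :
    km P G z = 0 ↔ z ∈ Glob P G := QuotientAddGroup.eq_zero_iff z

theorem map_km {G H : Type} [Group G] [Group H] (φ : G →* H)
    (z : Π₀ p : P, K0 (MonoidAlgebra ℚ_[((p : Nat.Primes) : ℕ)] G)) :
    KM.map P φ (km P G z) = km P H (KM.premap P φ z) := rfl

theorem KM_compat {G : Type} [Group G] {H K : Subgroup G} (g : G) (φ : H →* K)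
    (hφ : ∀ h : H, (φ h : G) = g * h * g⁻¹) (x : KM P H) :
    KM.map P K.subtype (KM.map P φ x) = KM.map P H.subtype x := by
  obtain ⟨z, rfl⟩ := km_surj x
  rw [map_km, map_km, map_km]
  congr 1
  ext p
  exact K0_compat g φ hφ (z p)

/-- the assembly map -/
def asKM (P : Set Nat.Primes) (G : Type) [Group G] : ColKM P G →+ KM P G :=
  Colim.lift (fun H => KM.map P H.1.subtype) (fun _ _ g φ hφ x => KM_compat g φ hφ x)

theorem asKM_ι {G : Type} [Group G] (H : FinSub G) (x : KM P H.1) :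
    asKM P G (Colim.ι _ _ H x) = KM.map P H.1.subtype x :=
  Colim.lift_ι (G := G) (F := fun H => KM P H) (m := fun φ => KM.map P φ) _ _ H x

/-- structure maps -/
def ik {G : Type} [Group G] (H : FinSub G) : KM P H.1 →+ ColKM P G :=
  Colim.ιHom (G := G) (fun H => KM P H) (fun φ => KM.map P φ) H

theorem ik_rel {G : Type} [Group G] (H K : FinSub G) (g : G) (φ : H.1 →* K.1)
    (hφ : ∀ h : H.1, (φ h : G) = g * h * g⁻¹) (x : KM P H.1) :
    ik K (KM.map P φ x) = ik H x :=
  Colim.ι_rel (G := G) (fun H => KM P H) (fun φ => KM.map P φ) H K g φ hφ x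

theorem asKM_ik {G : Type} [Group G] (H : FinSub G) (x : KM P H.1) :
    asKM P G (ik H x) = KM.map P H.1.subtype x := asKM_ι H x

theorem premap_single {G H : Type} [Group G] [Group H] (φ : G →* H) (p : P)
    (x : K0 (MonoidAlgebra ℚ_[((p : Nat.Primes) : ℕ)] G)) :
    KM.premap P φ (DFinsupp.single (β := LQ P G) p x) =
      DFinsupp.single (β := LQ P H) p (K0.map (mapDomainRingHom _ φ) x) := by
  exact DFinsupp.mapRange_single (β₁ := LQ P G) (β₂ := LQ P H)
    (f := fun i : P => (K0.map (mapDomainRingHom ℚ_[((i : Nat.Primes) : ℕ)] φ) :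
      LQ P G i → LQ P H i)) (hf := fun i => map_zero _)

variable {G : Type} [Group G]

/-- the maps from the local colimits -/
def th (p : P) : ColK ℚ_[((p : Nat.Primes) : ℕ)] G →+ ColKM P G :=
  Colim.lift (fun H => (ik H).comp ((km P H.1).comp (DFinsupp.singleAddHom (LQ P H.1) p)))
    (fun H K g φ hφ x => by
      show ik K (km P K.1 (DFinsupp.single (β := LQ P K.1) p (K0.map _ x))) =
        ik H (km P H.1 (DFinsupp.single (β := LQ P H.1) p x))
      rw [← premap_single, ← map_km]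
      exact ik_rel H K g φ hφ _)

theorem th_ci (p : P) (H : FinSub G) (x : K0 (MonoidAlgebra ℚ_[((p : Nat.Primes) : ℕ)] H.1)) :
    th p (ci H x) = ik H (km P H.1 (DFinsupp.single (β := LQ P H.1) p x)) :=
  Colim.lift_ι (G := G) (F := fun H => K0 (MonoidAlgebra ℚ_[((p : Nat.Primes) : ℕ)] H))
    (m := fun φ => K0.map (mapDomainRingHom _ φ)) _ _ H x

/-- the sum of the local maps -/
def Th (P : Set Nat.Primes) (G : Type) [Group G] :
    (Π₀ p : P, ColK ℚ_[((p : Nat.Primes) : ℕ)] G) →+ ColKM P G :=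
  DFinsupp.sumAddHom fun p => th p

theorem Th_single (p : P) (y : ColK ℚ_[((p : Nat.Primes) : ℕ)] G) :
    Th P G (DFinsupp.single (β := LC P G) p y) = th p y := DFinsupp.sumAddHom_single _ _ _

theorem Th_surj (x : ColKM P G) : ∃ ξ, Th P G ξ = x := by
  induction x using Colim.induction with
  | h0 => exact ⟨0, map_zero _⟩
  | hadd x y hx hy =>
    obtain ⟨a, rfl⟩ := hx
    obtain ⟨b, rfl⟩ := hy
    exact ⟨a + b, map_add _ _ _⟩
  | hneg x hx =>
    obtain ⟨a, rfl⟩ := hx
    exact ⟨-a, map_neg _ _⟩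
  | hι H x =>
    obtain ⟨z, rfl⟩ := km_surj x
    show ∃ ξ, Th P G ξ = ik H (km P H.1 z)
    induction z using DFinsupp.induction with
    | h0 => exact ⟨0, by rw [map_zero, map_zero, map_zero]⟩
    | ha p b f _ _ ih =>
      obtain ⟨ξ, hξ⟩ := ih
      refine ⟨DFinsupp.single (β := LC P G) p (ci H b) + ξ, ?_⟩
      rw [map_add, map_add, map_add, hξ, Th_single, th_ci]

/-- the sum of the local assembly maps -/
def asL (P : Set Nat.Primes) (G : Type) [Group G] :
    (Π₀ p : P, ColK ℚ_[((p : Nat.Primes) : ℕ)] G) →+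
      (Π₀ p : P, K0 (MonoidAlgebra ℚ_[((p : Nat.Primes) : ℕ)] G)) :=
  DFinsupp.mapRange.addMonoidHom fun p => asm ℚ_[((p : Nat.Primes) : ℕ)] G

theorem asL_single (p : P) (y : ColK ℚ_[((p : Nat.Primes) : ℕ)] G) :
    asL P G (DFinsupp.single (β := LC P G) p y) = DFinsupp.single (β := LQ P G) p (asm _ G y) := by
  exact DFinsupp.mapRange_single (β₁ := LC P G) (β₂ := LQ P G)
    (f := fun i : P => (asm ℚ_[((i : Nat.Primes) : ℕ)] G : LC P G i → LQ P G i))
    (hf := fun i => map_zero _)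

theorem asKM_th (p : P) (y : ColK ℚ_[((p : Nat.Primes) : ℕ)] G) :
    asKM P G (th p y) = km P G (DFinsupp.single (β := LQ P G) p (asm _ G y)) := by
  induction y using ColK.induction with
  | hadd x y hx hy =>
    rw [map_add, map_add, hx, hy, map_add, DFinsupp.single_add, map_add]
  | hneg x hx => rw [map_neg, map_neg, hx, map_neg, DFinsupp.single_neg, map_neg]
  | hι H x => rw [th_ci, asKM_ik, map_km, premap_single, asm_ci]

theorem asKM_Th (ξ : Π₀ p : P, ColK ℚ_[((p : Nat.Primes) : ℕ)] G) :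
    asKM P G (Th P G ξ) = km P G (asL P G ξ) := by
  induction ξ using DFinsupp.induction with
  | h0 => rw [map_zero, map_zero, map_zero, map_zero]
  | ha p y f _ _ ih =>
    have h1 := asKM_th (P := P) (G := G) p y
    rw [map_add, map_add, map_add, map_add, ih]
    congr 1
    exact (congrArg (asKM P G) (Th_single p y)).trans
      (h1.trans (congrArg (km P G) (asL_single p y).symm))

theorem th_zp (p : P) (w : ColK ℤ_[((p : Nat.Primes) : ℕ)] G) :
    th p (cc PadicInt.Coe.ringHom w) = 0 := by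
  induction w using ColK.induction with
  | hadd x y hx hy => rw [map_add, map_add, hx, hy, add_zero]
  | hneg x hx => rw [map_neg, map_neg, hx, neg_zero]
  | hι H x =>
    rw [cc_ci, th_ci]
    have h : km P H.1 (DFinsupp.single (β := LQ P H.1) p
        (K0.map (mapRingHom H.1 PadicInt.Coe.ringHom) x)) = 0 := by
      rw [km_zero_iff]
      refine ⟨0, fun q => ?_⟩
      by_cases hq : p = q
      · subst hq
        exact ⟨x, by rw [DFinsupp.single_eq_same, map_zero, zero_add]; rfl⟩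
      · exact ⟨0, by rw [DFinsupp.single_eq_of_ne (Ne.symm hq), map_zero, map_zero, add_zero]⟩
    rw [h, map_zero]

/-- the averaging idempotent over the `p`-adic integers -/
theorem avg_int (p : Nat.Primes) (D : Type) [Group D] [Finite D] (hD : ¬ (p : ℕ) ∣ Nat.card D) :
    ∃ a : K0 (MonoidAlgebra ℤ_[(p : ℕ)] D), fromZp p D a = fromQ p D (avgCl D) := by
  let _ := Fintype.ofFinite D
  have hu : IsUnit ((Nat.card D : ℕ) : ℤ_[(p : ℕ)]) := by
    rw [PadicInt.isUnit_iff]
    by_contra h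
    have h1 := PadicInt.norm_le_one ((Nat.card D : ℕ) : ℤ_[(p : ℕ)])
    exact hD (PadicInt.norm_natCast_lt_one_iff.1 (lt_of_le_of_ne h1 h))
  obtain ⟨u, hu⟩ := hu
  let e' : MonoidAlgebra ℤ_[(p : ℕ)] D := ∑ d : D, single d ((u⁻¹ : ℤ_[(p : ℕ)]ˣ) : ℤ_[(p : ℕ)])
  have h1 : mapRingHom D (PadicInt.Coe.ringHom (p := (p : ℕ))) e' =
      mapRingHom D (algebraMap ℚ ℚ_[(p : ℕ)]) (avg D) := by
    have h2 : PadicInt.Coe.ringHom (p := (p : ℕ)) ((u⁻¹ : ℤ_[(p : ℕ)]ˣ) : ℤ_[(p : ℕ)]) =
        algebraMap ℚ ℚ_[(p : ℕ)] ((Nat.card D : ℚ)⁻¹) := by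
      rw [map_inv₀, map_natCast]
      apply eq_inv_of_mul_eq_one_left
      have h3 : ((Nat.card D : ℕ) : ℚ_[(p : ℕ)]) = PadicInt.Coe.ringHom (p := (p : ℕ)) (u : ℤ_[(p : ℕ)]) := by
        rw [hu, map_natCast]
      rw [h3, ← map_mul, Units.inv_mul, map_one]
    unfold avg
    rw [map_sum, map_sum]
    refine Finset.sum_congr rfl fun d _ => ?_
    have h4 : ∀ {A B : Type} [CommRing A] [CommRing B] (θ : A →+* B) (r : A),
        mapRingHom D θ (single d r) = single d (θ r) := by
      intro A B _ _ θ r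
      simp
    rw [h4, h4, h2]
  have hinj : Function.Injective (mapRingHom D (PadicInt.Coe.ringHom (p := (p : ℕ)))) :=
    MonoidAlgebra.map_injective ((PadicInt.Coe.ringHom (p := (p : ℕ)) : ℤ_[(p : ℕ)] →+* ℚ_[(p : ℕ)]) :
      ℤ_[(p : ℕ)] →+ ℚ_[(p : ℕ)]) Subtype.val_injective
  have he : e' * e' = e' := by
    apply hinj
    rw [map_mul, h1, ← map_mul, avg_idem]
  refine ⟨cl1 e' he, ?_⟩
  unfold fromZp fromQ avgCl
  rw [map_cl1, map_cl1]
  congr 1

/-- the local classes of global averaging idempotents cancel -/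
theorem avg_cancel {v : ColK ℚ G} (hv : v ∈ AvgSpan G) : ∃ S0 : Finset P, ∀ S : Finset P, S0 ⊆ S →
    ∑ p ∈ S, th p (cc (algebraMap ℚ ℚ_[((p : Nat.Primes) : ℕ)]) v) = 0 := by
  unfold AvgSpan at hv
  induction hv using AddSubgroup.closure_induction with
  | mem v hv =>
    obtain ⟨D, rfl⟩ := hv
    have := D.2
    have hfin : {p : P | ((p : Nat.Primes) : ℕ) ∣ Nat.card D.1}.Finite := by
      have h1 : Set.MapsTo (fun p : P => ((p : Nat.Primes) : ℕ))
          {p : P | ((p : Nat.Primes) : ℕ) ∣ Nat.card D.1} (Nat.divisors (Nat.card D.1)) := by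
        intro p hp
        exact Finset.mem_coe.2 (Nat.mem_divisors.2 ⟨hp, Nat.card_pos.ne'⟩)
      refine Set.Finite.of_injOn h1 ?_ (Finset.finite_toSet _)
      intro p _ q _ hpq
      exact Subtype.ext (Subtype.ext hpq)
    refine ⟨hfin.toFinset, fun S hS => ?_⟩
    have e1 : ∀ p ∈ S, th p (cc (algebraMap ℚ ℚ_[((p : Nat.Primes) : ℕ)]) (ci D (avgCl D.1))) =
        ik D (km P D.1 (DFinsupp.single (β := LQ P D.1) p (fromQ p D.1 (avgCl D.1)))) := by
      intro p _
      rw [cc_ci, th_ci]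
      rfl
    rw [Finset.sum_congr rfl e1, ← map_sum, ← map_sum]
    have e2 : km P D.1 (∑ p ∈ S,
        DFinsupp.single (β := LQ P D.1) p (fromQ p D.1 (avgCl D.1))) = 0 := by
      rw [km_zero_iff]
      refine ⟨avgCl D.1, fun q => ?_⟩
      rw [DFinsupp.finsetSum_apply]
      by_cases hq : q ∈ S
      · refine ⟨0, ?_⟩
        rw [Finset.sum_eq_single q, DFinsupp.single_eq_same, map_zero, add_zero]
        · intro p _ hpq
          exact DFinsupp.single_eq_of_ne (Ne.symm hpq)
        · intro h; exact absurd hq h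
      · have hqd : ¬ ((q : Nat.Primes) : ℕ) ∣ Nat.card D.1 := by
          intro h
          exact hq (hS (hfin.mem_toFinset.2 h))
        obtain ⟨a, ha⟩ := avg_int (q : Nat.Primes) D.1 hqd
        refine ⟨-a, ?_⟩
        rw [map_neg, ha, add_neg_cancel]
        refine Finset.sum_eq_zero fun p hp => ?_
        exact DFinsupp.single_eq_of_ne (fun h => hq (h ▸ hp))
    rw [e2, map_zero]
  | zero => exact ⟨∅, fun S _ => Finset.sum_eq_zero fun p _ => by rw [map_zero, map_zero]⟩
  | add x y _ _ hx hy =>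
    obtain ⟨S1, h1⟩ := hx
    obtain ⟨S2, h2⟩ := hy
    refine ⟨S1 ∪ S2, fun S hS => ?_⟩
    have h3 := h1 S (Finset.union_subset_left hS)
    have h4 := h2 S (Finset.union_subset_right hS)
    simp only [map_add, Finset.sum_add_distrib, h3, h4, add_zero]
  | neg x _ hx =>
    obtain ⟨S1, h1⟩ := hx
    refine ⟨S1, fun S hS => ?_⟩
    simp only [map_neg, Finset.sum_neg_distrib, h1 S hS, neg_zero]

/-- **Theorem.** The assembly map in degree `-1` is rationally injective. -/
theorem main (hA : S_Artin) (hT : S_Tors) (hI : S_Int) (hG : S_Gen) (hP : S_Pow) (hC : S_Comb)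
    (x : ColKM P G) (n : ℕ) (hn : 0 < n) (hx : n • asKM P G x = 0) :
    ∃ l : ℕ, 0 < l ∧ l • x = 0 := by
  obtain ⟨ξ, rfl⟩ := Th_surj x
  rw [asKM_Th, ← map_nsmul, km_zero_iff] at hx
  obtain ⟨b, hb⟩ := hx
  choose a ha using hb
  -- the global class function
  obtain ⟨X, hX⟩ := T_repr b
  let β : G → ℚ := fun g => if orderOf g = 0 then 0 else T ℚ (cind g) b
  have hord : ∀ x y : G, IsConj x y → orderOf x = orderOf y := by
    intro x y hxy
    obtain ⟨c, rfl⟩ := isConj_iff.1 hxy
    exact ((MulAut.conj c).orderOf_eq x).symm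
  have hcind : ∀ x y : G, IsConj x y → cind x = cind y := by
    intro x y hxy
    funext z
    unfold cind
    by_cases h : IsConj x z
    · rw [if_pos h, if_pos (hxy.symm.trans h)]
    · rw [if_neg h, if_neg fun h' => h (hxy.trans h')]
  obtain ⟨M, v, hM, hv, hvβ⟩ := hC G β X.coeff.support
    (fun x y hxy => by
      show (if orderOf x = 0 then 0 else T ℚ (cind x) b) = if orderOf y = 0 then 0 else T ℚ (cind y) b
      rw [hord x y hxy, hcind x y hxy])
    (fun g hg => if_pos hg)
    (fun g k hg hk => by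
      have h1 : orderOf (g ^ k) = orderOf g := Nat.Coprime.orderOf_pow hk.symm
      show (if orderOf (g ^ k) = 0 then 0 else T ℚ (cind (g ^ k)) b) =
        if orderOf g = 0 then 0 else T ℚ (cind g) b
      rw [h1, hP G b g k hg hk])
    (fun g hg => by
      by_contra hcon
      push Not at hcon
      apply hg
      show (if orderOf g = 0 then 0 else T ℚ (cind g) b) = 0
      split_ifs
      · rfl
      · rw [hX _ (cind_cls g), Pool.Agent.H23R2.Cyc.ell_eq_sum _ X.coeff.support X
          fun g hg => Finsupp.mem_support_iff.2 hg]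
        refine Finset.sum_eq_zero fun y hy => ?_
        have : cind g y = 0 := if_neg fun h => hcon y hy h.symm
        rw [this, Int.cast_zero, mul_zero])
  -- the local classes
  have hloc : ∀ p : P, ∃ (m : ℕ) (w : ColK ℤ_[((p : Nat.Primes) : ℕ)] G), 0 < m ∧
      m • ((M * n) • ξ p - cc (algebraMap ℚ ℚ_[((p : Nat.Primes) : ℕ)]) v) =
        cc PadicInt.Coe.ringHom w := by
    intro p
    apply integral hA hT hI hG
    intro g hg
    have h1 : T ℚ_[((p : Nat.Primes) : ℕ)] (cind g) (asm _ G (n • ξ p)) =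
        algebraMap ℚ ℚ_[((p : Nat.Primes) : ℕ)] (β g) := by
      have h2 : asm _ G (n • ξ p) = fromQ p G b + fromZp p G (a p) := by
        rw [← ha p, ← map_nsmul]
        rfl
      rw [h2, map_add]
      unfold fromQ fromZp
      rw [T_coef, T_coef, sing ((p : Nat.Primes) : ℕ) G (a p) g hg.1 hg.2, map_zero, add_zero]
      congr 1
      exact (if_neg hg.1.ne').symm
    rw [map_sub, TC_cc, hvβ, mul_smul, map_nsmul]
    have h3 : TC ℚ_[((p : Nat.Primes) : ℕ)] (cind g) (n • ξ p) =
        algebraMap ℚ ℚ_[((p : Nat.Primes) : ℕ)] (β g) := h1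
    rw [h3, map_mul, map_natCast, nsmul_eq_mul, sub_self]
  choose m w hm hw using hloc
  obtain ⟨S0, hS0⟩ := avg_cancel (P := P) hv
  let S : Finset P := ξ.support ∪ S0
  let m0 : ℕ := ∏ p ∈ S, m p
  have hm0 : 0 < m0 := Finset.prod_pos fun p _ => hm p
  have hTh : Th P G ξ = ∑ p ∈ S, th p (ξ p) := by
    unfold Th
    rw [DFinsupp.sumAddHom_apply, DFinsupp.sum]
    refine Finset.sum_subset Finset.subset_union_left ?_
    intro p _ hp
    rw [DFinsupp.notMem_support_iff.1 hp, map_zero]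
  refine ⟨m0 * (M * n), Nat.mul_pos hm0 (Nat.mul_pos hM hn), ?_⟩
  have h4 : ∀ p ∈ S, (m0 * (M * n)) • th p (ξ p) =
      m0 • th p (cc (algebraMap ℚ ℚ_[((p : Nat.Primes) : ℕ)]) v) := by
    intro p hp
    obtain ⟨k, hk⟩ := Finset.dvd_prod_of_mem m hp
    have h5 : m0 • ((M * n) • ξ p - cc (algebraMap ℚ ℚ_[((p : Nat.Primes) : ℕ)]) v) =
        cc PadicInt.Coe.ringHom (k • w p) := by
      have h6 : m0 = k * m p := by rw [mul_comm]; exact hk
      rw [h6, mul_smul, hw p, map_nsmul]
    have h7 := congrArg (th p) h5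
    rw [th_zp, map_nsmul, map_sub, smul_sub, map_nsmul, sub_eq_zero, smul_smul] at h7
    exact h7
  rw [hTh, Finset.smul_sum, Finset.sum_congr rfl h4, ← Finset.smul_sum,
    hS0 S Finset.subset_union_right, smul_zero]

end

end Pool.Agent.Y778.NK
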