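import Pool.Agent.Y778.NK.Tr
import Pool.Agent.Y69.ColAsm

/-!
# The colimit of the groups `K₀(R[H])` over the finite subgroups
-/

open Matrix

namespace Pool.Agent.Y778.NK

open MonoidAlgebra Pool.Agent.Y69

noncomputable section

variable (R : Type) [CommRing R] (G : Type) [Group G]

/-- the functor `H ↦ K₀(R[H])` on subgroups -/
abbrev FK (H : Subgroup G) : Type := K0 (MonoidAlgebra R H)

/-- `colim K₀(R[H])` over the finite subgroups `H` of `G` -/
abbrev ColK : Type :=
  Colim (G := G) (fun H => K0 (MonoidAlgebra R H)) (fun φ => K0.map (mapDomainRingHom R φ))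

variable {R G}

/-- the class `[H, x]` -/
def ci (H : FinSub G) : K0 (MonoidAlgebra R H.1) →+ ColK R G :=
  Colim.ιHom (G := G) (fun H => K0 (MonoidAlgebra R H)) (fun φ => K0.map (mapDomainRingHom R φ)) H

theorem ci_rel (H K : FinSub G) (g : G) (φ : H.1 →* K.1)
    (hφ : ∀ h : H.1, (φ h : G) = g * h * g⁻¹) (x : K0 (MonoidAlgebra R H.1)) :
    ci K (K0.map (mapDomainRingHom R φ) x) = ci H x :=
  Colim.ι_rel (G := G) (fun H => K0 (MonoidAlgebra R H)) (fun φ => K0.map (mapDomainRingHom R φ))
    H K g φ hφ x

theorem ColK.induction {P : ColK R G → Prop}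
    (hadd : ∀ x y, P x → P y → P (x + y)) (hneg : ∀ x, P x → P (-x))
    (hι : ∀ (H : FinSub G) (x : K0 (MonoidAlgebra R H.1)), P (ci H x)) (z : ColK R G) : P z := by
  refine Colim.induction ?_ hadd hneg hι z
  have h := hι (⟨⊥, inferInstance⟩ : FinSub G) 0
  rw [map_zero] at h
  exact h

/-- conjugation by a group element acts trivially on `K₀(R[G])` -/
theorem K0map_conj_group (g : G) (x : K0 (MonoidAlgebra R G)) :
    K0.map (mapDomainRingHom R (MulAut.conj g).toMonoidHom) x = x := by
  let u : (MonoidAlgebra R G)ˣ :=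
    { val := single g 1
      inv := single g⁻¹ 1
      val_inv := by rw [single_mul_single, mul_inv_cancel, one_mul, one_def]
      inv_val := by rw [single_mul_single, inv_mul_cancel, one_mul, one_def] }
  apply K0map_conj _ u
  intro r
  show mapDomainRingHom R (MulAut.conj g).toMonoidHom r = single g 1 * r * single g⁻¹ 1
  induction r using MonoidAlgebra.induction_linear with
  | zero => simp
  | add x y hx hy => rw [map_add, hx, hy, mul_add, add_mul]
  | single h a =>
    rw [mapDomainRingHom_apply, mapDomain_single, single_mul_single, single_mul_single, one_mul,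
      mul_one]
    rfl

theorem K0_compat {H K : Subgroup G} (g : G) (φ : H →* K)
    (hφ : ∀ h : H, (φ h : G) = g * h * g⁻¹) (x : K0 (MonoidAlgebra R H)) :
    K0.map (mapDomainRingHom R K.subtype) (K0.map (mapDomainRingHom R φ) x) =
      K0.map (mapDomainRingHom R H.subtype) x := by
  rw [K0map_comp, mapDomainRingHom_comp', subtype_comp g φ hφ, ← mapDomainRingHom_comp',
    ← K0map_comp, K0map_conj_group]

variable (R G)

/-- The assembly map `colim K₀(R[H]) → K₀(R[G])`. -/
def asm : ColK R G →+ K0 (MonoidAlgebra R G) :=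
  Colim.lift (fun H => K0.map (mapDomainRingHom R H.1.subtype))
    (fun _ _ g φ hφ x => K0_compat g φ hφ x)

variable {R G}

theorem asm_ci (H : FinSub G) (x : K0 (MonoidAlgebra R H.1)) :
    asm R G (ci H x) = K0.map (mapDomainRingHom R H.1.subtype) x :=
  Colim.lift_ι (G := G) (F := fun H => K0 (MonoidAlgebra R H))
    (m := fun φ => K0.map (mapDomainRingHom R φ)) _ _ H x

/-- the trace of a class function on the colimit -/
def TC (R : Type) [CommRing R] (h : G → ℤ) : ColK R G →+ R := (T R h).comp (asm R G)

theorem TC_ci {h : G → ℤ} (hh : IsCls h) (H : FinSub G) (x : K0 (MonoidAlgebra R H.1)) :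
    TC R h (ci H x) = T R (fun g : H.1 => h g) x := by
  unfold TC
  rw [AddMonoidHom.comp_apply, asm_ci, T_map _ hh]
  rfl

theorem mapRing_mapDomain {S : Type} [CommRing S] (θ : R →+* S) {H K : Type} [Group H] [Group K]
    (φ : H →* K) : (mapRingHom K θ).comp (mapDomainRingHom R φ) =
      (mapDomainRingHom S φ).comp (mapRingHom H θ) := by
  apply RingHom.ext
  intro x
  induction x using MonoidAlgebra.induction_linear with
  | zero => simp
  | add x y hx hy => rw [map_add, hx, hy, map_add]
  | single h a => simp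

/-- change of coefficients on the colimit -/
def cc {S : Type} [CommRing S] (θ : R →+* S) : ColK R G →+ ColK S G :=
  Colim.lift (fun H => (ci H).comp (K0.map (mapRingHom H.1 θ)))
    (fun H K g φ hφ x => by
      show ci K (K0.map _ (K0.map _ x)) = ci H (K0.map _ x)
      rw [K0map_comp, mapRing_mapDomain, ← K0map_comp]
      exact ci_rel H K g φ hφ _)

theorem cc_ci {S : Type} [CommRing S] (θ : R →+* S) (H : FinSub G)
    (x : K0 (MonoidAlgebra R H.1)) : cc θ (ci H x) = ci H (K0.map (mapRingHom H.1 θ) x) :=
  Colim.lift_ι (G := G) (F := fun H => K0 (MonoidAlgebra R H))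
    (m := fun φ => K0.map (mapDomainRingHom R φ)) _ _ H x

theorem asm_cc {S : Type} [CommRing S] (θ : R →+* S) (x : ColK R G) :
    asm S G (cc θ x) = K0.map (mapRingHom G θ) (asm R G x) := by
  induction x using ColK.induction with
  | hadd x y hx hy => rw [map_add, map_add, map_add, map_add, hx, hy]
  | hneg x hx => rw [map_neg, map_neg, map_neg, map_neg, hx]
  | hι H x => rw [cc_ci, asm_ci, asm_ci, K0map_comp, K0map_comp, mapRing_mapDomain]

theorem TC_cc {S : Type} [CommRing S] (θ : R →+* S) (h : G → ℤ) (x : ColK R G) :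
    TC S h (cc θ x) = θ (TC R h x) := by
  show T S h (asm S G (cc θ x)) = θ (T R h (asm R G x))
  rw [asm_cc, T_coef]

end

end Pool.Agent.Y778.NK
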