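import Pool.Agent.Y778.NK.Stm
import Pool.Agent.Y69.StepC
import Pool.Agent.Y69.TK.ArtK

/-!
# Traces detect `colim K₀(F[H])` up to torsion
-/

open Matrix

namespace Pool.Agent.Y778.NK

open MonoidAlgebra Pool.Agent.Y69 Pool.Agent.Y69.StepC

noncomputable section

variable {F : Type} [Field F] {G : Type} [Group G]

/-- the image of a finite group -/
def rg {C : Type} [Group C] [Finite C] (φ : C →* G) : FinSub G :=
  ⟨φ.range, Finite.of_surjective φ.rangeRestrict φ.rangeRestrict_surjective⟩

/-- the projection to the image -/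
def rrg {C : Type} [Group C] [Finite C] (φ : C →* G) : C →* (rg φ).1 := φ.rangeRestrict

/-- the class of an element of `K₀(F[C])` for a homomorphism `φ : C → G` -/
def sy (R : Type) [CommRing R] {C : Type} [Group C] [Finite C] (φ : C →* G) :
    K0 (MonoidAlgebra R C) →+ ColK R G :=
  (ci (rg φ)).comp (K0.map (mapDomainRingHom R (rrg φ)))

theorem sy_apply {R : Type} [CommRing R] {C : Type} [Group C] [Finite C] (φ : C →* G)
    (u : K0 (MonoidAlgebra R C)) :
    sy R φ u = ci (rg φ) (K0.map (mapDomainRingHom R (rrg φ)) u) := rfl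

/-- naturality of the classes -/
theorem sy_map {R : Type} [CommRing R] {C D : Type} [Group C] [Group D] [Finite C] [Finite D]
    (φ : C →* G) (ψ : D →* G) (f : D →* C) (g : G) (h : ∀ x, φ (f x) = g * ψ x * g⁻¹)
    (u : K0 (MonoidAlgebra R D)) : sy R φ (K0.map (mapDomainRingHom R f) u) = sy R ψ u := by
  have hmem : ∀ y : (rg ψ).1, g * (y : G) * g⁻¹ ∈ (rg φ).1 := by
    rintro ⟨_, x, rfl⟩
    exact ⟨f x, h x⟩
  let θ : (rg ψ).1 →* (rg φ).1 :=
    { toFun := fun y => ⟨g * (y : G) * g⁻¹, hmem y⟩
      map_one' := by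
        apply Subtype.ext
        show g * (1 : G) * g⁻¹ = 1
        group
      map_mul' := fun y z => by
        apply Subtype.ext
        show g * ((y : G) * (z : G)) * g⁻¹ = (g * (y : G) * g⁻¹) * (g * (z : G) * g⁻¹)
        group }
  have h1 := ci_rel (R := R) (rg ψ) (rg φ) g θ (fun y => rfl)
    (K0.map (mapDomainRingHom R (rrg ψ)) u)
  rw [sy_apply, sy_apply, ← h1, K0map_comp, K0map_comp, mapDomainRingHom_comp',
    mapDomainRingHom_comp']
  congr 3
  congr 1
  ext x
  show (φ (f x)) = g * ψ x * g⁻¹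
  exact h x

theorem asm_sy {R : Type} [CommRing R] {C : Type} [Group C] [Finite C] (φ : C →* G)
    (u : K0 (MonoidAlgebra R C)) :
    asm R G (sy R φ u) = K0.map (mapDomainRingHom R φ) u := by
  rw [sy_apply, asm_ci, K0map_comp, mapDomainRingHom_comp']
  rfl

theorem TC_sy {R : Type} [CommRing R] {C : Type} [Group C] [Finite C] (φ : C →* G)
    {h : G → ℤ} (hh : IsCls h) (u : K0 (MonoidAlgebra R C)) :
    TC R h (sy R φ u) = T R (fun c => h (φ c)) u := by
  show T R h (asm R G (sy R φ u)) = _
  rw [asm_sy, T_map φ hh]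

theorem sy_incl {R : Type} [CommRing R] {H : FinSub G} {C : Type} [Group C] [Finite C]
    (φ : C →* H.1) (u : K0 (MonoidAlgebra R C)) :
    ci H (K0.map (mapDomainRingHom R φ) u) = sy R (H.1.subtype.comp φ) u := by
  have hmem : ∀ y : (rg (H.1.subtype.comp φ)).1, (y : G) ∈ H.1 := by
    rintro ⟨_, x, rfl⟩
    exact (φ x).2
  let θ : (rg (H.1.subtype.comp φ)).1 →* H.1 :=
    { toFun := fun y => ⟨(y : G), hmem y⟩
      map_one' := rfl
      map_mul' := fun y z => rfl }
  have h3 := ci_rel (R := R) (rg (H.1.subtype.comp φ)) H 1 θ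
    (fun y => by
      show (y : G) = 1 * (y : G) * 1⁻¹
      group)
    (K0.map (mapDomainRingHom R (rrg (H.1.subtype.comp φ))) u)
  have h4 : θ.comp (rrg (H.1.subtype.comp φ)) = φ := by
    ext x
    rfl
  rw [K0map_comp, mapDomainRingHom_comp', h4] at h3
  exact h3

/-- the span of the classes coming from finite abelian groups -/
def SE (R : Type) [CommRing R] (G : Type) [Group G] : AddSubgroup (ColK R G) :=
  AddSubgroup.closure {z | ∃ (C : Type) (_ : CommGroup C) (_ : Finite C) (φ : C →* G)
    (_ : Function.Injective φ) (u : K0 (MonoidAlgebra R C)), z = sy R φ u}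

theorem sy_mem {R : Type} [CommRing R] {C : Type} [CommGroup C] [Finite C] (φ : C →* G)
    (hφ : Function.Injective φ) (u : K0 (MonoidAlgebra R C)) : sy R φ u ∈ SE R G :=
  AddSubgroup.subset_closure ⟨C, _, _, φ, hφ, u, rfl⟩

/-- every element has a multiple coming from cyclic groups -/
theorem cover (hA : S_Artin) {R : Type} [CommRing R] (hR : ∀ n : ℕ, 0 < n → IsUnit (n : R))
    (z : ColK R G) : ∃ k : ℕ, 0 < k ∧ k • z ∈ SE R G := by
  induction z using ColK.induction with
  | hadd x y hx hy =>
    obtain ⟨k, hk, h1⟩ := hx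
    obtain ⟨l, hl, h2⟩ := hy
    refine ⟨k * l, Nat.mul_pos hk hl, ?_⟩
    rw [smul_add]
    refine AddSubgroup.add_mem _ ?_ ?_
    · rw [mul_comm k l, mul_smul]
      exact AddSubgroup.nsmul_mem _ h1 l
    · rw [mul_smul]
      exact AddSubgroup.nsmul_mem _ h2 k
  | hneg x hx =>
    obtain ⟨k, hk, h1⟩ := hx
    exact ⟨k, hk, by rw [smul_neg]; exact AddSubgroup.neg_mem _ h1⟩
  | hι H x =>
    have := H.2
    obtain ⟨k, hk, h1⟩ := hA R hR H.1 x
    refine ⟨k, hk, ?_⟩
    rw [← map_nsmul]
    have h2 : k • x ∈ (SE R G).comap (ci H) := by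
      refine (AddSubgroup.closure_le _).2 ?_ h1
      rintro _ ⟨C, hC, z, rfl⟩
      show ci H (K0.map _ z) ∈ SE R G
      rw [sy_incl]
      letI : CommGroup C := IsCyclic.commGroup
      exact @sy_mem G _ R _ C _ _ _ (Subtype.val_injective.comp Subtype.val_injective) z
    exact h2

open Classical in
/-- the trace at an element of a commutative group -/
def bb (R : Type) [CommRing R] {C : Type} [CommGroup C] (u : K0 (MonoidAlgebra R C)) (c : C) : R :=
  T R (fun y => if y = c then 1 else 0) u

theorem isCls_comm {C : Type} [CommGroup C] (h : C → ℤ) : IsCls h := fun x y => by rw [mul_comm]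

theorem T_eq_sum {R : Type} [CommRing R] {C : Type} [CommGroup C] [Fintype C] (h : C → ℤ)
    (u : K0 (MonoidAlgebra R C)) : T R h u = ∑ c, bb R u c * ((h c : ℤ) : R) := by
  classical
  unfold bb
  induction u using K0.induction with
  | hadd x y hx hy =>
    rw [map_add, hx, hy, ← Finset.sum_add_distrib]
    refine Finset.sum_congr rfl fun c _ => ?_
    rw [map_add, add_mul]
  | hneg x hx =>
    rw [map_neg, hx, ← Finset.sum_neg_distrib]
    refine Finset.sum_congr rfl fun c _ => ?_
    rw [map_neg, neg_mul]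
  | hcl n e he =>
    rw [T_cl0 (isCls_comm h)]
    have h1 : ∀ c, T R (fun y => if y = c then 1 else 0) (cl0 e he) = ∑ i, (e i i).coeff c := by
      intro c
      rw [T_cl0 (isCls_comm _)]
      unfold hs
      refine Finset.sum_congr rfl fun i _ => ?_
      rw [Pool.Agent.H23R2.Cyc.ell_eq_sum _ Finset.univ _ (fun g _ => Finset.mem_univ g),
        Finset.sum_eq_single c]
      · simp
      · intro d _ hd
        simp [hd]
      · intro h; exact absurd (Finset.mem_univ c) h
    simp only [h1]
    unfold hs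
    simp only [Pool.Agent.H23R2.Cyc.ell_eq_sum _ Finset.univ _ (fun g _ => Finset.mem_univ g),
      Finset.sum_mul]
    rw [Finset.sum_comm]

end

end Pool.Agent.Y778.NK
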