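import Pool.Agent.Y778.NK.Inj

/-!
# Traces detect `colim K₀(F[H])` up to torsion, `F` a field of characteristic zero
-/

open Matrix

namespace Pool.Agent.Y778.NK

open MonoidAlgebra Pool.Agent.Y69 Pool.Agent.Y69.StepC

noncomputable section

/-- blow-up of matrices -/
def bl {S S' : Type} [Ring S] [Ring S'] {X : Type} [Fintype X] [DecidableEq X]
    (θ : S →+* Matrix X X S') {ι : Type} (e : Matrix ι ι S) :
    Matrix (ι × X) (ι × X) S' := Matrix.of fun p q => θ (e p.1 q.1) p.2 q.2

theorem bl_idem {S S' : Type} [Ring S] [Ring S'] {X : Type} [Fintype X] [DecidableEq X]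
    (θ : S →+* Matrix X X S') {ι : Type} [Fintype ι] {e : Matrix ι ι S} (he : e * e = e) :
    bl θ e * bl θ e = bl θ e := by
  ext ⟨i, x⟩ ⟨j, y⟩
  conv_rhs => rw [← he]
  unfold bl
  rw [Matrix.mul_apply, Fintype.sum_prod_type]
  simp only [Matrix.of_apply]
  rw [Matrix.mul_apply, map_sum, Matrix.sum_apply]
  refine Finset.sum_congr rfl fun k _ => ?_
  rw [map_mul, Matrix.mul_apply]

theorem ps_diag {R : Type} [CommRing R] {C : Type} [CommGroup C] (D : Subgroup C)
    [Fintype (C ⧸ D)] [DecidableEq (C ⧸ D)] (a : MonoidAlgebra R C) (x : C ⧸ D) (d : D) :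
    ((TK.ArtK.ps D a x x).coeff d : R) = a.coeff d := by
  classical
  induction a using MonoidAlgebra.induction_linear with
  | zero => simp
  | add a b ha hb => 
    rw [map_add, Matrix.add_apply, coeff_add, Finsupp.add_apply, ha, hb, coeff_add,
      Finsupp.add_apply]
  | single g r =>
    rw [TK.ArtK.ps_single, Matrix.smul_apply]
    show (r • (if h : g • x = x then _ else 0 : MonoidAlgebra R D)).coeff d = _
    have hx : g • x = x ↔ g ∈ D := by
      obtain ⟨c, rfl⟩ := QuotientGroup.mk_surjective x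
      have h1 : g • (c : C ⧸ D) = ((g * c : C) : C ⧸ D) := rfl
      rw [h1, QuotientGroup.eq]
      have h2 : (g * c)⁻¹ * c = g⁻¹ := by
        rw [_root_.mul_inv_rev, mul_comm c⁻¹, mul_assoc, inv_mul_cancel, mul_one]
      rw [h2, inv_mem_iff]
    by_cases h : g • x = x
    · rw [dif_pos h, MonoidAlgebra.of_apply, MonoidAlgebra.smul_single, smul_eq_mul, mul_one, coeff_single,
        coeff_single, Finsupp.single_apply, Finsupp.single_apply]
      have h3 : (Quotient.out x)⁻¹ * (g * Quotient.out x) = g := by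
        rw [mul_comm g, ← mul_assoc, inv_mul_cancel, one_mul]
      by_cases h4 : g = d
      · rw [if_pos h4, if_pos]
        apply Subtype.ext
        rw [← h4]
        exact h3
      · rw [if_neg h4, if_neg]
        intro h5
        apply h4
        rw [← congrArg Subtype.val h5]
        exact h3.symm
    · rw [dif_neg h, smul_zero, coeff_single, Finsupp.single_apply, if_neg]
      · rfl
      · intro h4
        exact h (hx.2 (h4 ▸ d.2))

theorem bb_cl0 {R : Type} [CommRing R] {C : Type} [CommGroup C] {ι : Type} [Fintype ι]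
    [DecidableEq ι] {e : Matrix ι ι (MonoidAlgebra R C)} (he : e * e = e) (c : C) :
    bb R (cl0 e he) c = ∑ i, (e i i).coeff c := by
  classical
  unfold bb
  rw [T_cl0 (isCls_comm _)]
  unfold hs
  refine Finset.sum_congr rfl fun i _ => ?_
  rw [Pool.Agent.H23R2.Cyc.ell_eq_sum _ (insert c (e i i).coeff.support) _ (fun g hg =>
    Finset.mem_insert_of_mem (Finsupp.mem_support_iff.2 hg)), Finset.sum_eq_single c]
  · simp
  · intro d _ hd
    simp [hd]
  · intro h; exact absurd (Finset.mem_insert_self c _) h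

/-- restriction to a subgroup -/
theorem res_exists {R : Type} [CommRing R] {C : Type} [CommGroup C] [Finite C] (D : Subgroup C)
    (u : K0 (MonoidAlgebra R C)) : ∃ (k : ℕ) (v : K0 (MonoidAlgebra R D)), 0 < k ∧
      ∀ d : D, bb R v d = k * bb R u d := by
  classical
  have : Fintype (C ⧸ D) := Fintype.ofFinite _
  refine ⟨Fintype.card (C ⧸ D), ?_⟩
  suffices h : ∃ v : K0 (MonoidAlgebra R D), ∀ d : D, bb R v d =
      (Fintype.card (C ⧸ D) : ℕ) * bb R u d by
    obtain ⟨v, hv⟩ := h
    exact ⟨v, Fintype.card_pos, hv⟩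
  induction u using K0.induction with
  | hadd x y hx hy =>
    obtain ⟨v, hv⟩ := hx
    obtain ⟨w, hw⟩ := hy
    refine ⟨v + w, fun d => ?_⟩
    have h1 := hv d
    have h2 := hw d
    unfold bb at h1 h2 ⊢
    rw [map_add, map_add, h1, h2, mul_add]
  | hneg x hx =>
    obtain ⟨v, hv⟩ := hx
    refine ⟨-v, fun d => ?_⟩
    have h1 := hv d
    unfold bb at h1 ⊢
    rw [map_neg, map_neg, h1, mul_neg]
  | hcl n e he =>
    refine ⟨cl0 (bl (TK.ArtK.ps D) e) (bl_idem _ he), fun d => ?_⟩
    rw [bb_cl0, bb_cl0, Fintype.sum_prod_type, Finset.mul_sum]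
    refine Finset.sum_congr rfl fun i _ => ?_
    have h1 : ∀ x : C ⧸ D, ((bl (TK.ArtK.ps D) e (i, x) (i, x)).coeff d : R) =
        (e i i).coeff d := fun x => ps_diag D (e i i) x d
    rw [Finset.sum_congr rfl fun x _ => h1 x, Finset.sum_const, Finset.card_univ, nsmul_eq_mul]

theorem T_zero' {R : Type} [CommRing R] {C : Type} [CommGroup C] (u : K0 (MonoidAlgebra R C)) :
    T R (fun _ => 0) u = 0 := by
  induction u using K0.induction with
  | hadd x y hx hy => rw [map_add, hx, hy, add_zero]
  | hneg x hx => rw [map_neg, hx, neg_zero]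
  | hcl n e he =>
    rw [T_cl0 (isCls_comm _)]
    unfold hs
    refine Finset.sum_eq_zero fun i _ => ?_
    rw [Pool.Agent.H23R2.Cyc.ell_eq_sum _ (e i i).coeff.support _ (fun g hg =>
      Finsupp.mem_support_iff.2 hg)]
    simp

theorem bb_map {R : Type} [CommRing R] {C D : Type} [CommGroup C] [CommGroup D] (f : C →* D)
    (hf : Function.Injective f) (u : K0 (MonoidAlgebra R C)) (c : C) :
    bb R (K0.map (mapDomainRingHom R f) u) (f c) = bb R u c := by
  classical
  unfold bb
  rw [T_map f (isCls_comm _)]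
  congr 2
  funext y
  by_cases h : y = c
  · rw [if_pos (congrArg f h), if_pos h]
  · rw [if_neg fun h' => h (hf h'), if_neg h]

theorem bb_map_not {R : Type} [CommRing R] {C D : Type} [CommGroup C] [CommGroup D] (f : C →* D)
    (u : K0 (MonoidAlgebra R C)) (d : D) (hd : d ∉ Set.range f) :
    bb R (K0.map (mapDomainRingHom R f) u) d = 0 := by
  classical
  unfold bb
  rw [T_map f (isCls_comm _), ← T_zero' u]
  congr 2
  funext y
  rw [if_neg]
  intro h
  exact hd ⟨y, h⟩

/-- the theory -/
def theory (hT : S_Tors) (F : Type) [Field F] [CharZero F] : Theory F 0 where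
  U C _ := K0 (MonoidAlgebra F C)
  grp C _ := inferInstance
  map f := K0.map (mapDomainRingHom F f)
  b u := bb F u
  b_add _ u v := by
    funext c
    show T _ _ (u + v) = _
    rw [map_add]
    rfl
  b_map := by
    intro C D _ _ _ _ _ f hf u c
    exact bb_map f hf u c
  b_map_not := by
    intro C D _ _ _ _ _ f _ u d hd
    exact bb_map_not f u d hd
  res := by
    intro C _ _ _ D u
    exact res_exists D u
  tors := by
    intro C _ _ _ u hu
    refine ⟨1, one_pos, ?_⟩
    rw [one_smul]
    apply hT F C u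
    intro h
    have := Fintype.ofFinite C
    rw [T_eq_sum]
    refine Finset.sum_eq_zero fun c _ => ?_
    rw [hu]
    exact zero_mul _

/-- **Traces detect the colimit up to torsion.** -/
theorem inj (hA : S_Artin) (hT : S_Tors) {F : Type} [Field F] [CharZero F] {G : Type} [Group G]
    (y : ColK F G) (h0 : ∀ h : G → ℤ, IsCls h → TC F h y = 0) : ∃ k : ℕ, 0 < k ∧ k • y = 0 := by
  obtain ⟨k, hk, h1⟩ := cover hA (fun n hn => isUnit_iff_ne_zero.2 (by exact_mod_cast hn.ne')) y
  obtain ⟨l, hl, h2⟩ := Theory.main (S := theory hT F) (G := G) (𝒜 := ColK F G)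
    (fun {C} _ _ φ => sy F φ)
    (fun {C D} _ _ _ _ φ ψ f g h u => sy_map φ ψ f g h u) (fun h => TC F h)
    (fun h hh C _ _ _ φ u => (TC_sy φ hh u).trans (T_eq_sum _ u)) (y := k • y) (by
      refine (AddSubgroup.closure_mono ?_) h1
      rintro z ⟨C, i1, i2, φ, hφ, u, rfl⟩
      exact ⟨C, i1, i2, dvd_zero _, φ, hφ, u, rfl⟩)
    (fun h hh => by rw [map_nsmul, h0 h hh, smul_zero])
  exact ⟨l * k, Nat.mul_pos hl hk, by rw [mul_smul]; exact h2⟩

end

end Pool.Agent.Y778.NK
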