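import Pool.Agent.Y778.NK.K0Def

/-!
# API for `K₀(R)` by idempotent matrices
-/

open Matrix

namespace Pool.Agent.Y778.NK

noncomputable section

section

variable {R : Type} [Ring R]

theorem K0.mk_sum' {m n : ℕ} (e : IdMat R m) (f : IdMat R n)
    (d : IdMat R (m + n)) (h : (d : Matrix (Fin (m + n)) (Fin (m + n)) R) =
        Matrix.reindex finSumFinEquiv finSumFinEquiv
          (Matrix.fromBlocks (e : Matrix (Fin m) (Fin m) R) 0 0 (f : Matrix (Fin n) (Fin n) R))) :
    K0.mk d = K0.mk e + K0.mk f := sub_eq_zero.1 (K0.mk_sum e f d h)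

theorem K0.mk_swap' {m n : ℕ} (e : IdMat R m) (f : IdMat R n)
    (u : Matrix (Fin m) (Fin n) R) (v : Matrix (Fin n) (Fin m) R)
    (h1 : u * v = (e : Matrix (Fin m) (Fin m) R)) (h2 : v * u = (f : Matrix (Fin n) (Fin n) R)) :
    K0.mk e = K0.mk f := sub_eq_zero.1 (K0.mk_swap e f u v h1 h2)

variable {ι κ μ : Type} [Fintype ι] [DecidableEq ι] [Fintype κ] [DecidableEq κ] [Fintype μ]
  [DecidableEq μ]

theorem reindex_idem (σ : ι ≃ κ) {e : Matrix ι ι R} (he : e * e = e) :
    Matrix.reindex σ σ e * Matrix.reindex σ σ e = Matrix.reindex σ σ e := by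
  rw [Matrix.reindex_apply, Matrix.submatrix_mul_equiv, he]

/-- the class of an idempotent matrix indexed by a finite type -/
def cl0 (e : Matrix ι ι R) (he : e * e = e) : K0 R :=
  K0.mk ⟨Matrix.reindex (Fintype.equivFin ι) (Fintype.equivFin ι) e, reindex_idem _ he⟩

/-- equivalent idempotents have the same class -/
theorem cl0_swap {e : Matrix ι ι R} (he : e * e = e) {f : Matrix κ κ R} (hf : f * f = f)
    (u : Matrix ι κ R) (v : Matrix κ ι R) (h1 : u * v = e) (h2 : v * u = f) :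
    cl0 e he = cl0 f hf := by
  unfold cl0
  apply K0.mk_swap' _ _ (Matrix.reindex (Fintype.equivFin ι) (Fintype.equivFin κ) u)
    (Matrix.reindex (Fintype.equivFin κ) (Fintype.equivFin ι) v)
  · show Matrix.reindex _ _ u * Matrix.reindex _ _ v = Matrix.reindex _ _ e
    rw [Matrix.reindex_apply, Matrix.reindex_apply, Matrix.submatrix_mul_equiv, h1]
    rfl
  · show Matrix.reindex _ _ v * Matrix.reindex _ _ u = Matrix.reindex _ _ f
    rw [Matrix.reindex_apply, Matrix.reindex_apply, Matrix.submatrix_mul_equiv, h2]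
    rfl

theorem cl0_eq {e f : Matrix ι ι R} (he : e * e = e) (hf : f * f = f) (h : e = f) :
    cl0 e he = cl0 f hf := by
  subst h
  rfl

/-- the class does not depend on the indexing -/
theorem cl0_congr (σ : ι ≃ κ) {e : Matrix ι ι R} (he : e * e = e) {f : Matrix κ κ R}
    (hf : f * f = f) (h : ∀ i j, e i j = f (σ i) (σ j)) : cl0 e he = cl0 f hf := by
  have h1 : e = f.submatrix σ σ := by
    ext i j
    rw [h, Matrix.submatrix_apply]
  apply cl0_swap he hf (f.submatrix σ id) (f.submatrix id σ)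
  · rw [h1, Matrix.submatrix_mul (e₁ := σ) (e₂ := id) (e₃ := σ) f f Function.bijective_id |>.symm, hf]
  · have h2 := Matrix.submatrix_mul (e₁ := (id : κ → κ)) (e₂ := σ) (e₃ := (id : κ → κ)) f f σ.bijective
    rw [← h2, hf, Matrix.submatrix_id_id]

theorem cl0_fin {n : ℕ} (e : IdMat R n) : cl0 (e : Matrix (Fin n) (Fin n) R) e.2 = K0.mk e := by
  unfold cl0
  apply K0.mk_swap' _ _ (Matrix.submatrix (e : Matrix (Fin n) (Fin n) R)
    (Fintype.equivFin (Fin n)).symm id) (Matrix.submatrix (e : Matrix (Fin n) (Fin n) R) id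
    (Fintype.equivFin (Fin n)).symm)
  · show _ = Matrix.submatrix _ _ _
    rw [← Matrix.submatrix_mul (e₁ := (Fintype.equivFin (Fin n)).symm) (e₂ := id)
      (e₃ := (Fintype.equivFin (Fin n)).symm) _ _ Function.bijective_id, e.2]
    rfl
  · have h2 := Matrix.submatrix_mul (e₁ := (id : Fin n → Fin n)) (e₂ := (Fintype.equivFin (Fin n)).symm)
      (e₃ := (id : Fin n → Fin n)) (e : Matrix (Fin n) (Fin n) R) (e : Matrix (Fin n) (Fin n) R)
      (Fintype.equivFin (Fin n)).symm.bijective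
    rw [← h2, e.2, Matrix.submatrix_id_id]

theorem blocks_idem {e : Matrix ι ι R} (he : e * e = e) {f : Matrix κ κ R} (hf : f * f = f) :
    fromBlocks e 0 0 f * fromBlocks e 0 0 f = fromBlocks e 0 0 f := by
  rw [fromBlocks_multiply, he, hf]
  simp

theorem cl0_blocks {e : Matrix ι ι R} (he : e * e = e) {f : Matrix κ κ R} (hf : f * f = f) :
    cl0 (fromBlocks e 0 0 f) (blocks_idem he hf) = cl0 e he + cl0 f hf := by
  have h := K0.mk_sum' (⟨Matrix.reindex (Fintype.equivFin ι) (Fintype.equivFin ι) e,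
    reindex_idem _ he⟩ : IdMat R (Fintype.card ι)) (⟨Matrix.reindex (Fintype.equivFin κ)
    (Fintype.equivFin κ) f, reindex_idem _ hf⟩ : IdMat R (Fintype.card κ))
    ⟨_, reindex_idem _ (blocks_idem (reindex_idem (Fintype.equivFin ι) he)
      (reindex_idem (Fintype.equivFin κ) hf))⟩ rfl
  show _ = K0.mk _ + K0.mk _
  rw [← h, ← cl0_fin]
  apply cl0_congr ((Equiv.sumCongr (Fintype.equivFin ι) (Fintype.equivFin κ)).trans finSumFinEquiv)
  rintro (i | i) (j | j) <;> simp

theorem cl0_zero : cl0 (0 : Matrix ι ι R) (mul_zero _) = 0 := by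
  have h1 : ∀ (α β : Type) [Fintype α] [DecidableEq α] [Fintype β] [DecidableEq β],
      cl0 (0 : Matrix α α R) (mul_zero _) = cl0 (0 : Matrix β β R) (mul_zero _) := by
    intro α β _ _ _ _
    exact cl0_swap _ _ 0 0 (by simp) (by simp)
  have h2 := cl0_blocks (ι := ι) (κ := ι) (mul_zero (0 : Matrix ι ι R)) (mul_zero (0 : Matrix ι ι R))
  have h3 : cl0 (fromBlocks (0 : Matrix ι ι R) 0 0 (0 : Matrix ι ι R))
      (blocks_idem (mul_zero _) (mul_zero _)) = cl0 (0 : Matrix ι ι R) (mul_zero _) := by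
    rw [cl0_eq (f := 0) _ (mul_zero _) fromBlocks_zero]
    exact h1 _ _
  rw [h3] at h2
  exact left_eq_add.1 h2

theorem orth_idem {e f : Matrix ι ι R} (he : e * e = e) (hf : f * f = f) (h1 : e * f = 0)
    (h2 : f * e = 0) : (e + f) * (e + f) = e + f := by
  rw [add_mul, mul_add, mul_add, he, hf, h1, h2, add_zero, zero_add]

/-- orthogonal idempotents -/
theorem cl0_orth {e f : Matrix ι ι R} (he : e * e = e) (hf : f * f = f) (h1 : e * f = 0)
    (h2 : f * e = 0) : cl0 (e + f) (orth_idem he hf h1 h2) = cl0 e he + cl0 f hf := by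
  rw [← cl0_blocks he hf]
  apply cl0_swap _ _ (fromCols e f) (fromRows e f)
  · rw [fromCols_mul_fromRows, he, hf]
  · rw [fromRows_mul_fromCols, he, hf, h1, h2]

/-- conjugate idempotents -/
theorem cl0_conj {e : Matrix ι ι R} (he : e * e = e) {f : Matrix ι ι R} (hf : f * f = f)
    (P Q : Matrix ι ι R) (hQP : Q * P = 1) (h : f = P * e * Q) : cl0 f hf = cl0 e he := by
  apply cl0_swap _ _ (P * e) (e * Q)
  · rw [h, Matrix.mul_assoc, ← Matrix.mul_assoc e e Q, he, Matrix.mul_assoc]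
  · rw [Matrix.mul_assoc, ← Matrix.mul_assoc Q P e, hQP, Matrix.one_mul, he]

/-- every element of `K₀` is a difference of classes of idempotent matrices -/
theorem K0_exists (x : K0 R) : ∃ (m n : ℕ) (e : IdMat R m) (f : IdMat R n),
    x = K0.mk e - K0.mk f := by
  let q : FreeAbelianGroup (Σ n : ℕ, IdMat R n) →+ K0 R :=
    QuotientAddGroup.mk' (AddSubgroup.closure (K0Rel R))
  obtain ⟨y, rfl⟩ : ∃ y, q y = x := QuotientAddGroup.mk'_surjective _ x
  induction y using FreeAbelianGroup.induction_on with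
  | zero => exact ⟨0, 0, ⟨0, mul_zero _⟩, ⟨0, mul_zero _⟩, by rw [map_zero, sub_self]⟩
  | of y =>
    refine ⟨y.1, 0, y.2, ⟨0, mul_zero _⟩, ?_⟩
    have h0 : K0.mk (⟨0, mul_zero _⟩ : IdMat R 0) = 0 := by
      rw [← cl0_fin ⟨0, mul_zero _⟩]
      exact cl0_zero
    rw [h0, sub_zero]
    rfl
  | neg y h =>
    obtain ⟨m, n, e, f, h⟩ := h
    exact ⟨n, m, f, e, by rw [map_neg, h, neg_sub]⟩
  | add y z hy hz =>
    obtain ⟨m, n, e, f, h⟩ := hy
    obtain ⟨m', n', e', f', h'⟩ := hz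
    refine ⟨m + m', n + n', ⟨_, reindex_idem finSumFinEquiv (blocks_idem e.2 e'.2)⟩,
      ⟨_, reindex_idem finSumFinEquiv (blocks_idem f.2 f'.2)⟩, ?_⟩
    rw [map_add, h, h', K0.mk_sum' e e' _ rfl, K0.mk_sum' f f' _ rfl]
    abel

theorem K0_exists' (x : K0 R) : ∃ (m n : ℕ) (e : Matrix (Fin m) (Fin m) R) (he : e * e = e)
    (f : Matrix (Fin n) (Fin n) R) (hf : f * f = f), x = cl0 e he - cl0 f hf := by
  obtain ⟨m, n, e, f, h⟩ := K0_exists x
  exact ⟨m, n, e, e.2, f, f.2, by rw [h, cl0_fin, cl0_fin]⟩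

/-- `K₀` is generated by the classes of idempotent matrices -/
theorem K0.induction {P : K0 R → Prop} (hadd : ∀ x y, P x → P y → P (x + y))
    (hneg : ∀ x, P x → P (-x)) (hcl : ∀ (n : ℕ) (e : Matrix (Fin n) (Fin n) R) (he : e * e = e),
      P (cl0 e he)) (x : K0 R) : P x := by
  obtain ⟨m, n, e, he, f, hf, rfl⟩ := K0_exists' x
  rw [sub_eq_add_neg]
  exact hadd _ _ (hcl _ _ _) (hneg _ (hcl _ _ _))

/-- the universal property -/
theorem K0.lift_exists {B : Type*} [AddCommGroup B]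
    (F : ∀ (n : ℕ), Matrix (Fin n) (Fin n) R → B)
    (hsum : ∀ (m n : ℕ) (e : Matrix (Fin m) (Fin m) R) (f : Matrix (Fin n) (Fin n) R),
      F (m + n) (Matrix.reindex finSumFinEquiv finSumFinEquiv (fromBlocks e 0 0 f)) =
        F m e + F n f)
    (hswap : ∀ (m n : ℕ) (u : Matrix (Fin m) (Fin n) R) (v : Matrix (Fin n) (Fin m) R),
      F m (u * v) = F n (v * u)) :
    ∃ T : K0 R →+ B, ∀ (n : ℕ) (e : IdMat R n), T (K0.mk e) = F n e := by
  let g : FreeAbelianGroup (Σ n : ℕ, IdMat R n) →+ B :=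
    FreeAbelianGroup.lift fun x => F x.1 x.2
  have hg : AddSubgroup.closure (K0Rel R) ≤ g.ker := by
    rw [AddSubgroup.closure_le]
    rintro x (⟨m, n, e, f, d, hd, rfl⟩ | ⟨m, n, e, f, u, v, h1, h2, rfl⟩)
    · show g _ = 0
      rw [map_sub, map_add]
      simp only [g, FreeAbelianGroup.lift_apply_of]
      rw [hd, hsum, sub_self]
    · show g _ = 0
      rw [map_sub]
      simp only [g, FreeAbelianGroup.lift_apply_of]
      rw [← h1, ← h2, hswap, sub_self]
  refine ⟨QuotientAddGroup.lift _ g hg, ?_⟩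
  intro n e
  show g _ = _
  simp only [g, FreeAbelianGroup.lift_apply_of]

end

section map

variable {R S T : Type} [Ring R] [Ring S] [Ring T]

theorem map_idem (f : R →+* S) {ι : Type} [Fintype ι] [DecidableEq ι] {e : Matrix ι ι R}
    (he : e * e = e) : e.map f * e.map f = e.map f := by
  rw [← Matrix.map_mul, he]

theorem K0map_cl0 (f : R →+* S) {ι : Type} [Fintype ι] [DecidableEq ι] {e : Matrix ι ι R}
    (he : e * e = e) : K0.map f (cl0 e he) = cl0 (e.map f) (map_idem f he) := by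
  unfold cl0
  rw [K0.map_mk]
  rfl

theorem K0map_comp (f : R →+* S) (g : S →+* T) (x : K0 R) :
    K0.map g (K0.map f x) = K0.map (g.comp f) x := by
  obtain ⟨m, n, e, e', rfl⟩ := K0_exists x
  rw [map_sub, map_sub, map_sub, K0.map_mk, K0.map_mk, K0.map_mk, K0.map_mk, K0.map_mk, K0.map_mk]
  rfl

theorem K0map_id (x : K0 R) : K0.map (RingHom.id R) x = x := by
  obtain ⟨m, n, e, e', rfl⟩ := K0_exists x
  rw [map_sub, K0.map_mk, K0.map_mk]
  rfl

/-- conjugation by a unit acts trivially on `K₀` -/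
theorem K0map_conj (f : R →+* R) (u : Rˣ) (hf : ∀ r, f r = u * r * ((u⁻¹ : Rˣ) : R)) (x : K0 R) :
    K0.map f x = x := by
  obtain ⟨m, n, e, he, e', he', rfl⟩ := K0_exists' x
  have key : ∀ (n : ℕ) (e : Matrix (Fin n) (Fin n) R) (he : e * e = e),
      K0.map f (cl0 e he) = cl0 e he := by
    intro n e he
    rw [K0map_cl0]
    apply cl0_conj he _ (Matrix.diagonal fun _ => (u : R)) (Matrix.diagonal fun _ => ((u⁻¹ : Rˣ) : R))
    · rw [Matrix.diagonal_mul_diagonal]
      simp only [Units.inv_mul, Matrix.diagonal_one]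
    · ext i j
      rw [Matrix.map_apply, hf, Matrix.mul_diagonal, Matrix.diagonal_mul]
  rw [map_sub, key, key]

end map

end

end Pool.Agent.Y778.NK
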