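import Mathlib

/-!
# The group `K₀(R)` by idempotent matrices
-/

namespace Pool.Agent.Y778.NK

noncomputable section

/-- The idempotent `n × n` matrices over `R`. -/
abbrev IdMat (R : Type) [Ring R] (n : ℕ) : Type := {e : Matrix (Fin n) (Fin n) R // e * e = e}

/-- The relations `[e ⊕ f] = [e] + [f]` and `[u v] = [v u]` (`u v` and `v u` idempotent, `u`, `v`
rectangular matrices) between the classes of the idempotent matrices over `R`. -/
def K0Rel (R : Type) [Ring R] : Set (FreeAbelianGroup (Σ n : ℕ, IdMat R n)) :=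
  {z | (∃ (m n : ℕ) (e : IdMat R m) (f : IdMat R n) (d : IdMat R (m + n)),
      (d : Matrix (Fin (m + n)) (Fin (m + n)) R) =
        Matrix.reindex finSumFinEquiv finSumFinEquiv
          (Matrix.fromBlocks (e : Matrix (Fin m) (Fin m) R) 0 0 (f : Matrix (Fin n) (Fin n) R)) ∧
      z = FreeAbelianGroup.of ⟨m + n, d⟩ -
        (FreeAbelianGroup.of ⟨m, e⟩ + FreeAbelianGroup.of ⟨n, f⟩)) ∨
    ∃ (m n : ℕ) (e : IdMat R m) (f : IdMat R n) (u : Matrix (Fin m) (Fin n) R)
      (v : Matrix (Fin n) (Fin m) R), u * v = e ∧ v * u = f ∧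
      z = FreeAbelianGroup.of ⟨m, e⟩ - FreeAbelianGroup.of ⟨n, f⟩}

/-- `K₀(R)`: the abelian group generated by the classes `[e]` of the idempotent matrices over `R`
(the class of the projective module `e Rⁿ`) with the relations `[e ⊕ f] = [e] + [f]` and
`[u v] = [v u]`. -/
def K0 (R : Type) [Ring R] : Type :=
  FreeAbelianGroup (Σ n : ℕ, IdMat R n) ⧸ AddSubgroup.closure (K0Rel R)

instance (R : Type) [Ring R] : AddCommGroup (K0 R) :=
  QuotientAddGroup.Quotient.addCommGroup (AddSubgroup.closure (K0Rel R))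

/-- The class `[e]` in `K₀(R)` of an idempotent matrix. -/
def K0.mk {R : Type} [Ring R] {n : ℕ} (e : IdMat R n) : K0 R :=
  QuotientAddGroup.mk (FreeAbelianGroup.of ⟨n, e⟩)

theorem K0.mk_eq_zero {R : Type} [Ring R] {x : FreeAbelianGroup (Σ n : ℕ, IdMat R n)}
    (hx : x ∈ K0Rel R) : (QuotientAddGroup.mk x : K0 R) = 0 :=
  (QuotientAddGroup.eq_zero_iff x).2 (AddSubgroup.subset_closure hx)

theorem K0.mk_sum {R : Type} [Ring R] {m n : ℕ} (e : IdMat R m) (f : IdMat R n)
    (d : IdMat R (m + n)) (h : (d : Matrix (Fin (m + n)) (Fin (m + n)) R) =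
        Matrix.reindex finSumFinEquiv finSumFinEquiv
          (Matrix.fromBlocks (e : Matrix (Fin m) (Fin m) R) 0 0 (f : Matrix (Fin n) (Fin n) R))) :
    K0.mk d - (K0.mk e + K0.mk f) = 0 := by
  have h1 : (FreeAbelianGroup.of (⟨m + n, d⟩ : Σ n : ℕ, IdMat R n) -
    (FreeAbelianGroup.of ⟨m, e⟩ + FreeAbelianGroup.of ⟨n, f⟩)) ∈ K0Rel R :=
    Or.inl ⟨m, n, e, f, d, h, rfl⟩
  exact K0.mk_eq_zero h1

theorem K0.mk_swap {R : Type} [Ring R] {m n : ℕ} (e : IdMat R m) (f : IdMat R n)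
    (u : Matrix (Fin m) (Fin n) R) (v : Matrix (Fin n) (Fin m) R)
    (h1 : u * v = (e : Matrix (Fin m) (Fin m) R)) (h2 : v * u = (f : Matrix (Fin n) (Fin n) R)) :
    K0.mk e - K0.mk f = 0 := by
  have h : (FreeAbelianGroup.of (⟨m, e⟩ : Σ n : ℕ, IdMat R n) -
    FreeAbelianGroup.of ⟨n, f⟩) ∈ K0Rel R := Or.inr ⟨m, n, e, f, u, v, h1, h2, rfl⟩
  exact K0.mk_eq_zero h

/-- The entrywise image of an idempotent matrix under a ring homomorphism. -/
def mapId {R S : Type} [Ring R] [Ring S] (f : R →+* S) {n : ℕ} (e : IdMat R n) : IdMat S n :=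
  ⟨(e : Matrix (Fin n) (Fin n) R).map f, by rw [← Matrix.map_mul, e.2]⟩

/-- The homomorphism with `e ↦ [f(e)]` on the free abelian group on the idempotent matrices. -/
def K0.premap {R S : Type} [Ring R] [Ring S] (f : R →+* S) :
    FreeAbelianGroup (Σ n : ℕ, IdMat R n) →+ K0 S :=
  FreeAbelianGroup.lift fun x => K0.mk (mapId f x.2)

theorem K0.map_aux {R S : Type} [Ring R] [Ring S] (f : R →+* S) :
    AddSubgroup.closure (K0Rel R) ≤ (K0.premap f).ker := by
  rw [AddSubgroup.closure_le]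
  rintro x (⟨m, n, e, e', d, hd, rfl⟩ | ⟨m, n, e, e', u, v, h1, h2, rfl⟩)
  · show K0.premap f _ = 0
    rw [map_sub, map_add]
    unfold K0.premap
    rw [FreeAbelianGroup.lift_apply_of, FreeAbelianGroup.lift_apply_of,
      FreeAbelianGroup.lift_apply_of]
    apply K0.mk_sum
    show ((d : Matrix (Fin (m + n)) (Fin (m + n)) R)).map f = _
    rw [hd]
    ext i j
    show f ((Matrix.fromBlocks (e : Matrix (Fin m) (Fin m) R) 0 0
      (e' : Matrix (Fin n) (Fin n) R)) (finSumFinEquiv.symm i) (finSumFinEquiv.symm j)) =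
      (Matrix.fromBlocks ((e : Matrix (Fin m) (Fin m) R).map f) 0 0
      ((e' : Matrix (Fin n) (Fin n) R).map f)) (finSumFinEquiv.symm i) (finSumFinEquiv.symm j)
    rcases finSumFinEquiv.symm i with a | a <;> rcases finSumFinEquiv.symm j with b | b
    · rfl
    · exact map_zero f
    · exact map_zero f
    · rfl
  · show K0.premap f _ = 0
    rw [map_sub]
    unfold K0.premap
    rw [FreeAbelianGroup.lift_apply_of, FreeAbelianGroup.lift_apply_of]
    apply K0.mk_swap _ _ (u.map f) (v.map f)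
    · rw [← Matrix.map_mul, h1]
      rfl
    · rw [← Matrix.map_mul, h2]
      rfl

/-- The map `K₀(f) : K₀(R) → K₀(S)`, `[e] ↦ [f(e)]`, induced by a ring homomorphism `f`. -/
def K0.map {R S : Type} [Ring R] [Ring S] (f : R →+* S) : K0 R →+ K0 S :=
  QuotientAddGroup.lift (AddSubgroup.closure (K0Rel R)) (K0.premap f) (K0.map_aux f)

theorem K0.map_mk {R S : Type} [Ring R] [Ring S] (f : R →+* S) {n : ℕ} (e : IdMat R n) :
    K0.map f (K0.mk e) = K0.mk (mapId f e) := by
  show QuotientAddGroup.lift _ _ _ (QuotientAddGroup.mk _) = _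
  rw [QuotientAddGroup.lift_mk, K0.premap, FreeAbelianGroup.lift_apply_of]

end

end Pool.Agent.Y778.NK
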