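import Pool.Agent.Y778.NK.K0Def
import Pool.Agent.Y69.ColDef

/-!
# The arithmetic description of `K₋₁(ℤ[G])` and the assembly map in degree `-1`
-/

namespace Pool.Agent.Y778.NK

open MonoidAlgebra Pool.Agent.Y69

noncomputable section

instance primesFact (p : Nat.Primes) : Fact (p : ℕ).Prime := ⟨p.2⟩

/-- The map `K₀(ℚ[G]) → K₀(ℚ_p[G])`. -/
def fromQ (p : Nat.Primes) (G : Type) [Group G] :
    K0 (MonoidAlgebra ℚ G) →+ K0 (MonoidAlgebra ℚ_[(p : ℕ)] G) :=
  K0.map (mapRingHom G (algebraMap ℚ ℚ_[(p : ℕ)]))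

/-- The map `K₀(ℤ_p[G]) → K₀(ℚ_p[G])`. -/
def fromZp (p : Nat.Primes) (G : Type) [Group G] :
    K0 (MonoidAlgebra ℤ_[(p : ℕ)] G) →+ K0 (MonoidAlgebra ℚ_[(p : ℕ)] G) :=
  K0.map (mapRingHom G (PadicInt.Coe.ringHom (p := (p : ℕ))))

/-- The families `(z_p)` in `⨁ K₀(ℚ_p[G])`, `p` in a set of primes, for which there is an element
`b` of `K₀(ℚ[G])` such that `z_p - b` comes from `K₀(ℤ_p[G])` for all `p`. -/
def Glob (P : Set Nat.Primes) (G : Type) [Group G] :
    AddSubgroup (Π₀ p : P, K0 (MonoidAlgebra ℚ_[((p : Nat.Primes) : ℕ)] G)) where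
  carrier := {z | ∃ b : K0 (MonoidAlgebra ℚ G), ∀ p : P,
    ∃ a : K0 (MonoidAlgebra ℤ_[((p : Nat.Primes) : ℕ)] G), z p = fromQ p G b + fromZp p G a}
  zero_mem' := ⟨0, fun p => ⟨0, by rw [map_zero, map_zero, add_zero]; rfl⟩⟩
  add_mem' := by
    rintro z z' ⟨b, h⟩ ⟨b', h'⟩
    refine ⟨b + b', fun p => ?_⟩
    obtain ⟨a, ha⟩ := h p
    obtain ⟨a', ha'⟩ := h' p
    exact ⟨a + a', by rw [DFinsupp.add_apply, ha, ha', map_add, map_add]; abel⟩
  neg_mem' := by
    rintro z ⟨b, h⟩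
    refine ⟨-b, fun p => ?_⟩
    obtain ⟨a, ha⟩ := h p
    exact ⟨-a, by rw [DFinsupp.neg_apply, ha, map_neg, map_neg]; abel⟩

/-- The cokernel of `K₀(ℚ[G]) → ⨁ K₀(ℚ_p[G]) / K₀(ℤ_p[G])`, `p` in a set `P` of primes. For the set
of all primes it is `K₋₁(ℤ[G])` if `G` is finite, and a subgroup of `K₋₁(ℤ[G])` in general. -/
def KM (P : Set Nat.Primes) (G : Type) [Group G] : Type :=
  (Π₀ p : P, K0 (MonoidAlgebra ℚ_[((p : Nat.Primes) : ℕ)] G)) ⧸ Glob P G

instance (P : Set Nat.Primes) (G : Type) [Group G] : AddCommGroup (KM P G) :=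
  QuotientAddGroup.Quotient.addCommGroup (Glob P G)

theorem K0.map_comp {R S T : Type} [Ring R] [Ring S] [Ring T] (f : R →+* S) (g : S →+* T)
    (x : K0 R) : K0.map g (K0.map f x) = K0.map (g.comp f) x := by
  let q : FreeAbelianGroup (Σ n : ℕ, IdMat R n) →+ K0 R :=
    QuotientAddGroup.mk' (AddSubgroup.closure (K0Rel R))
  obtain ⟨y, rfl⟩ : ∃ y, q y = x := QuotientAddGroup.mk'_surjective _ x
  have h : ((K0.map g).comp (K0.map f)).comp q = (K0.map (g.comp f)).comp q := by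
    apply FreeAbelianGroup.lift.symm.injective
    funext y
    show K0.map g (K0.map f (K0.mk y.2)) = K0.map (g.comp f) (K0.mk y.2)
    rw [K0.map_mk, K0.map_mk, K0.map_mk]
    rfl
  exact DFunLike.congr_fun h y

theorem coef_group {R S : Type} [CommRing R] [CommRing S] (θ : R →+* S) {G H : Type} [Group G]
    [Group H] (φ : G →* H) (x : K0 (MonoidAlgebra R G)) :
    K0.map (mapDomainRingHom S φ) (K0.map (mapRingHom G θ) x) =
      K0.map (mapRingHom H θ) (K0.map (mapDomainRingHom R φ) x) := by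
  rw [K0.map_comp, K0.map_comp]
  congr 1
  congr 1
  apply RingHom.ext
  intro x
  induction x using MonoidAlgebra.induction_linear with
  | zero => simp
  | add x y hx hy => rw [map_add, hx, hy, map_add]
  | single h a => simp

/-- The map `⨁ K₀(ℚ_p[G]) → ⨁ K₀(ℚ_p[H])` induced by a homomorphism `φ : G → H`. -/
def KM.premap (P : Set Nat.Primes) {G H : Type} [Group G] [Group H] (φ : G →* H) :
    (Π₀ p : P, K0 (MonoidAlgebra ℚ_[((p : Nat.Primes) : ℕ)] G)) →+
      (Π₀ p : P, K0 (MonoidAlgebra ℚ_[((p : Nat.Primes) : ℕ)] H)) :=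
  DFinsupp.mapRange.addMonoidHom fun _ => K0.map (mapDomainRingHom _ φ)

theorem KM.map_aux (P : Set Nat.Primes) {G H : Type} [Group G] [Group H] (φ : G →* H) :
    Glob P G ≤ (Glob P H).comap (KM.premap P φ) := by
  rintro z ⟨b, h⟩
  refine ⟨K0.map (mapDomainRingHom ℚ φ) b, fun p => ?_⟩
  obtain ⟨a, ha⟩ := h p
  refine ⟨K0.map (mapDomainRingHom _ φ) a, ?_⟩
  show K0.map (mapDomainRingHom _ φ) (z p) = _
  rw [ha, map_add]
  congr 1
  · exact coef_group _ φ b
  · exact coef_group _ φ a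

/-- The map induced by a homomorphism of groups. -/
def KM.map (P : Set Nat.Primes) {G H : Type} [Group G] [Group H] (φ : G →* H) : KM P G →+ KM P H :=
  QuotientAddGroup.map (Glob P G) (Glob P H) (KM.premap P φ) (KM.map_aux P φ)

end

end Pool.Agent.Y778.NK
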