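import Pool.Agent.Y778.NK.K0Def
import Pool.Agent.Y69.ColDef

/-!
# The arithmetic description of `K₋₁(ℤ[G])`: statement
-/

namespace Pool.Agent.Y778.NK.KS

open MonoidAlgebra Pool.Agent.Y69

noncomputable section

instance primesFact (p : Nat.Primes) : Fact (p : ℕ).Prime := ⟨p.2⟩

/-- The group `K₀(ℚ[G])`. -/
def KQ (G : Type) [Group G] : Type := K0 (MonoidAlgebra ℚ G)

instance (G : Type) [Group G] : AddCommGroup (KQ G) :=
  instAddCommGroupK0 (MonoidAlgebra ℚ G)

/-- The group `K₀(ℤ_p[G])`. -/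
def KZp (p : Nat.Primes) (G : Type) [Group G] : Type := K0 (MonoidAlgebra ℤ_[(p : ℕ)] G)

instance (p : Nat.Primes) (G : Type) [Group G] : AddCommGroup (KZp p G) :=
  instAddCommGroupK0 (MonoidAlgebra ℤ_[(p : ℕ)] G)

/-- The group `K₀(ℚ_p[G])`. -/
def KQp (p : Nat.Primes) (G : Type) [Group G] : Type := K0 (MonoidAlgebra ℚ_[(p : ℕ)] G)

instance (p : Nat.Primes) (G : Type) [Group G] : AddCommGroup (KQp p G) :=
  instAddCommGroupK0 (MonoidAlgebra ℚ_[(p : ℕ)] G)

/-- The map `K₀(ℚ[G]) → K₀(ℚ_p[G])`. -/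
def fromQ (p : Nat.Primes) (G : Type) [Group G] : KQ G →+ KQp p G :=
  K0.map (mapRingHom G (algebraMap ℚ ℚ_[(p : ℕ)]))

/-- The map `K₀(ℤ_p[G]) → K₀(ℚ_p[G])`. -/
def fromZp (p : Nat.Primes) (G : Type) [Group G] : KZp p G →+ KQp p G :=
  K0.map (mapRingHom G (PadicInt.Coe.ringHom (p := (p : ℕ))))

/-- The map `K₀(ℚ_p[G]) → K₀(ℚ_p[H])` induced by a homomorphism `φ : G → H`. -/
def KQp.map (p : Nat.Primes) {G H : Type} [Group G] [Group H] (φ : G →* H) : KQp p G →+ KQp p H :=
  K0.map (mapDomainRingHom ℚ_[(p : ℕ)] φ)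

theorem K0map_comp' {R S T : Type} [Ring R] [Ring S] [Ring T] (f : R →+* S) (g : S →+* T)
    (x : K0 R) : K0.map g (K0.map f x) = K0.map (g.comp f) x := by
  let q : FreeAbelianGroup (Σ n : ℕ, IdMat R n) →+ K0 R :=
    QuotientAddGroup.mk' (AddSubgroup.closure (K0Rel R))
  obtain ⟨y, rfl⟩ : ∃ y, q y = x := QuotientAddGroup.mk'_surjective _ x
  have h : ((K0.map g).comp (K0.map f)).comp q = (K0.map (g.comp f)).comp q := by
    apply FreeAbelianGroup.lift.symm.injective
    funext y
    show K0.map g (K0.map f (K0.mk y.2)) = K0.map (g.comp f) (K0.mk y.2)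
    rw [K0.map_mk, K0.map_mk, K0.map_mk]
    rfl
  exact DFunLike.congr_fun h y

theorem coef_group' {R S : Type} [CommRing R] [CommRing S] (θ : R →+* S) {G H : Type} [Group G]
    [Group H] (φ : G →* H) (x : K0 (MonoidAlgebra R G)) :
    K0.map (mapDomainRingHom S φ) (K0.map (mapRingHom G θ) x) =
      K0.map (mapRingHom H θ) (K0.map (mapDomainRingHom R φ) x) := by
  rw [K0map_comp', K0map_comp']
  congr 1
  congr 1
  apply RingHom.ext
  intro x
  induction x using MonoidAlgebra.induction_linear with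
  | zero => simp
  | add x y hx hy => rw [map_add, hx, hy, map_add]
  | single h a => simp

/-- The direct sum of the groups `K₀(ℚ_p[G])`, `p` in a set `P` of primes. -/
def Loc (P : Set Nat.Primes) (G : Type) [Group G] : Type := Π₀ p : P, KQp p G

instance (P : Set Nat.Primes) (G : Type) [Group G] : AddCommGroup (Loc P G) :=
  DFinsupp.addCommGroup

/-- The component at `p`. -/
def Loc.at {P : Set Nat.Primes} {G : Type} [Group G] (z : Loc P G) (p : P) : KQp p G :=
  (show Π₀ p : P, KQp p G from z) p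

/-- There is an element `b` of `K₀(ℚ[G])` such that `z_p - b` comes from `K₀(ℤ_p[G])` for all `p`
in `P`. -/
def IsGlob {P : Set Nat.Primes} {G : Type} [Group G] (z : Loc P G) : Prop :=
  ∃ b : KQ G, ∀ p : P, ∃ a : KZp p G, z.at p = fromQ p G b + fromZp p G a

theorem IsGlob.zero {P : Set Nat.Primes} {G : Type} [Group G] : IsGlob (0 : Loc P G) :=
  ⟨0, fun p => ⟨0, by rw [map_zero, map_zero, add_zero]; rfl⟩⟩

theorem IsGlob.add {P : Set Nat.Primes} {G : Type} [Group G] {z z' : Loc P G} (hz : IsGlob z)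
    (hz' : IsGlob z') : IsGlob (z + z') := by
  obtain ⟨b, h⟩ := hz
  obtain ⟨b', h'⟩ := hz'
  refine ⟨b + b', fun p => ?_⟩
  obtain ⟨a, ha⟩ := h p
  obtain ⟨a', ha'⟩ := h' p
  have h1 : (z + z').at p = z.at p + z'.at p := rfl
  exact ⟨a + a', by rw [h1, ha, ha', map_add, map_add]; abel⟩

theorem IsGlob.neg {P : Set Nat.Primes} {G : Type} [Group G] {z : Loc P G} (hz : IsGlob z) :
    IsGlob (-z) := by
  obtain ⟨b, h⟩ := hz
  refine ⟨-b, fun p => ?_⟩
  obtain ⟨a, ha⟩ := h p
  have h1 : (-z).at p = -z.at p := rfl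
  exact ⟨-a, by rw [h1, ha, map_neg, map_neg]; abel⟩

/-- The subgroup of the families `z` with `IsGlob z`. -/
def Glob (P : Set Nat.Primes) (G : Type) [Group G] : AddSubgroup (Loc P G) where
  carrier := {z | IsGlob z}
  zero_mem' := IsGlob.zero
  add_mem' := IsGlob.add
  neg_mem' := IsGlob.neg

/-- The cokernel of `K₀(ℚ[G]) → ⨁ K₀(ℚ_p[G]) / K₀(ℤ_p[G])`, `p` in a set `P` of primes. For the set
of all primes it is `K₋₁(ℤ[G])` if `G` is finite, and a subgroup of `K₋₁(ℤ[G])` in general. -/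
def KM (P : Set Nat.Primes) (G : Type) [Group G] : Type := Loc P G ⧸ Glob P G

instance (P : Set Nat.Primes) (G : Type) [Group G] : AddCommGroup (KM P G) :=
  QuotientAddGroup.Quotient.addCommGroup (Glob P G)

/-- The map `⨁ K₀(ℚ_p[G]) → ⨁ K₀(ℚ_p[H])` induced by a homomorphism `φ : G → H`. -/
def Loc.map (P : Set Nat.Primes) {G H : Type} [Group G] [Group H] (φ : G →* H) :
    Loc P G →+ Loc P H :=
  DFinsupp.mapRange.addMonoidHom fun p : P => KQp.map p φ

theorem KM.map_aux (P : Set Nat.Primes) {G H : Type} [Group G] [Group H] (φ : G →* H) :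
    Glob P G ≤ (Glob P H).comap (Loc.map P φ) := by
  rintro z ⟨b, h⟩
  refine ⟨K0.map (mapDomainRingHom ℚ φ) b, fun p => ?_⟩
  obtain ⟨a, ha⟩ := h p
  refine ⟨K0.map (mapDomainRingHom _ φ) a, ?_⟩
  show KQp.map p φ (z.at p) = _
  rw [ha, map_add]
  congr 1
  · exact coef_group' _ φ b
  · exact coef_group' _ φ a

/-- The map induced by a homomorphism of groups. -/
def KM.map (P : Set Nat.Primes) {G H : Type} [Group G] [Group H] (φ : G →* H) : KM P G →+ KM P H :=
  QuotientAddGroup.map (Glob P G) (Glob P H) (Loc.map P φ) (KM.map_aux P φ)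

/-- `KM(P, H)` of a finite subgroup. -/
def KF (P : Set Nat.Primes) {G : Type} [Group G] (H : FinSub G) : Type := KM P H.1

instance (P : Set Nat.Primes) {G : Type} [Group G] (H : FinSub G) : AddCommGroup (KF P H) :=
  instAddCommGroupKM P H.1

/-- The map induced by a homomorphism of finite subgroups. -/
def KF.map (P : Set Nat.Primes) {G : Type} [Group G] {H K : FinSub G} (φ : H.1 →* K.1) :
    KF P H →+ KF P K := KM.map P φ

/-- The free abelian group on the symbols `[H, x]`, `H` a finite subgroup of `G`, `x ∈ KM(P, H)`. -/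
def KMFree (P : Set Nat.Primes) (G : Type) [Group G] : Type :=
  FreeAbelianGroup (Σ H : FinSub G, KF P H)

instance (P : Set Nat.Primes) (G : Type) [Group G] : AddCommGroup (KMFree P G) :=
  instAddCommGroupFreeAbelianGroup _

/-- The symbol `[H, x]`. -/
def KMFree.of {P : Set Nat.Primes} {G : Type} [Group G] (H : FinSub G) (x : KF P H) :
    KMFree P G := FreeAbelianGroup.of ⟨H, x⟩

/-- The relations of the colimit: `[H, x]` is additive in `x`, and `[K, φ(x)] = [H, x]` for the maps
`φ : H → K` given by conjugation with an element of `G`. -/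
def KMRel (P : Set Nat.Primes) (G : Type) [Group G] : Set (KMFree P G) :=
  {z | (∃ (H : FinSub G) (x y : KF P H),
      z = KMFree.of H (x + y) - (KMFree.of H x + KMFree.of H y)) ∨
    ∃ (H K : FinSub G) (g : G) (φ : H.1 →* K.1) (x : KF P H),
      (∀ h : H.1, (φ h : G) = g * h * g⁻¹) ∧ z = KMFree.of K (KF.map P φ x) - KMFree.of H x}

/-- `colim KM(P, H)` over the finite subgroups `H` of `G`. -/
def KMColim (P : Set Nat.Primes) (G : Type) [Group G] : Type :=
  KMFree P G ⧸ AddSubgroup.closure (KMRel P G)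

instance (P : Set Nat.Primes) (G : Type) [Group G] : AddCommGroup (KMColim P G) :=
  QuotientAddGroup.Quotient.addCommGroup _

/-- The structure map `KM(P, H) → colim KM(P, -)` of a finite subgroup. -/
def KMColim.ι {P : Set Nat.Primes} {G : Type} [Group G] (H : FinSub G) (x : KF P H) :
    KMColim P G :=
  QuotientAddGroup.mk' (AddSubgroup.closure (KMRel P G)) (KMFree.of H x)

/-- The map `KM(P, H) → KM(P, G)` induced by the inclusion of a finite subgroup. -/
def KF.incl {P : Set Nat.Primes} {G : Type} [Group G] (H : FinSub G) : KF P H →+ KM P G :=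
  KM.map P H.1.subtype

end

end Pool.Agent.Y778.NK.KS
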