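import Pool.Agent.Y778.NK.Col

/-!
# Statements of the steps
-/

open Matrix

namespace Pool.Agent.Y778.NK

open MonoidAlgebra Pool.Agent.Y69

noncomputable section

/-- the class in `K₀(S)` of an idempotent element -/
def cl1 {S : Type} [Ring S] (e : S) (he : e * e = e) : K0 S :=
  cl0 (Matrix.of fun _ _ : Unit => e) (by
    ext i j
    rw [Matrix.mul_apply]
    simp [he])

/-- Artin induction for `K₀(R[H])`. -/
def S_Artin : Prop :=
  ∀ (R : Type) [CommRing R], (∀ n : ℕ, 0 < n → IsUnit (n : R)) →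
    ∀ (H : Type) [Group H] [Finite H] (x : K0 (MonoidAlgebra R H)), ∃ k : ℕ, 0 < k ∧
      k • x ∈ AddSubgroup.closure {y | ∃ (C : Subgroup H) (_ : IsCyclic C)
        (z : K0 (MonoidAlgebra R C)), y = K0.map (mapDomainRingHom R C.subtype) z}

/-- `K₀` of the group algebra of a finite abelian group over a field of characteristic zero is
generated by the classes of the idempotent elements. -/
def S_Gen : Prop :=
  ∀ (F : Type) [Field F] [CharZero F] (C : Type) [CommGroup C] [Finite C]
    (x : K0 (MonoidAlgebra F C)), x ∈ AddSubgroup.closure {y | ∃ (e : MonoidAlgebra F C)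
      (he : e * e = e), y = cl1 e he}

/-- Traces detect `K₀` of the group algebra of a finite abelian group over a field of characteristic
zero. -/
def S_Tors : Prop :=
  ∀ (F : Type) [Field F] [CharZero F] (C : Type) [CommGroup C] [Finite C]
    (x : K0 (MonoidAlgebra F C)), (∀ h : C → ℤ, T F h x = 0) → x = 0

/-- Idempotents of `ℚ_p[C]` are integral if `p` does not divide the order of `C`. -/
def S_Int : Prop :=
  ∀ (p : ℕ) [Fact p.Prime] (C : Type) [CommGroup C] [Finite C], ¬ p ∣ Nat.card C →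
    ∀ e : MonoidAlgebra ℚ_[p] C, e * e = e → ∃ e' : MonoidAlgebra ℤ_[p] C, e' * e' = e' ∧
      mapRingHom C PadicInt.Coe.ringHom e' = e

/-- Traces of `K₀(ℚ[G])` are invariant under powers prime to the order. -/
def S_Pow : Prop :=
  ∀ (G : Type) [Group G] (x : K0 (MonoidAlgebra ℚ G)) (g : G) (k : ℕ), 0 < orderOf g →
    k.Coprime (orderOf g) → T ℚ (cind (g ^ k)) x = T ℚ (cind g) x

/-- Traces of `K₀(ℤ_p[G])` vanish at `p`-singular elements. -/
def S_Sing : Prop :=
  ∀ (p : ℕ) [Fact p.Prime] (G : Type) [Group G] (x : K0 (MonoidAlgebra ℤ_[p] G)) (g : G),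
    0 < orderOf g → p ∣ orderOf g → T ℤ_[p] (cind g) x = 0

/-- the averaging idempotent of a finite group -/
def avg (D : Type) [Group D] [Finite D] : MonoidAlgebra ℚ D :=
  letI := Fintype.ofFinite D
  ∑ d : D, single d ((Nat.card D : ℚ)⁻¹)

theorem avg_idem (D : Type) [Group D] [Finite D] : avg D * avg D = avg D := by
  let _ := Fintype.ofFinite D
  have h1 : ∀ d : D, single d ((Nat.card D : ℚ)⁻¹) * avg D = (Nat.card D : ℚ)⁻¹ • avg D := by
    intro d
    unfold avg
    rw [Finset.mul_sum, Finset.smul_sum]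
    rw [← Equiv.sum_comp (Equiv.mulLeft d)
      (fun x => (Nat.card D : ℚ)⁻¹ • (single x ((Nat.card D : ℚ)⁻¹) : MonoidAlgebra ℚ D))]
    refine Finset.sum_congr rfl fun x _ => ?_
    rw [MonoidAlgebra.single_mul_single, MonoidAlgebra.smul_single]
    rfl
  have h2 : avg D * avg D = ∑ d : D, single d ((Nat.card D : ℚ)⁻¹) * avg D := by
    conv_lhs => rw [avg, Finset.sum_mul]
    rfl
  rw [h2, Finset.sum_congr rfl fun d _ => h1 d, Finset.sum_const, Finset.card_univ,
    ← Nat.card_eq_fintype_card, ← Nat.cast_smul_eq_nsmul ℚ, smul_smul, mul_inv_cancel₀, one_smul]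
  exact_mod_cast Nat.card_pos.ne'

/-- its class -/
def avgCl (D : Type) [Group D] [Finite D] : K0 (MonoidAlgebra ℚ D) := cl1 (avg D) (avg_idem D)

/-- the span of the classes of the averaging idempotents of the finite subgroups -/
def AvgSpan (G : Type) [Group G] : AddSubgroup (ColK ℚ G) :=
  AddSubgroup.closure {y | ∃ D : FinSub G, y = ci D (letI := D.2; avgCl D.1)}

/-- The indicator function of the generators of a cyclic subgroup. -/
def S_Cyc : Prop :=
  ∀ (G : Type) [Group G] (D : FinSub G), ∃ (M : ℕ) (v : ColK ℚ G), 0 < M ∧ v ∈ AvgSpan G ∧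
    ∀ h : G → ℤ, IsCls h →
      TC ℚ h v = M * ∑ᶠ (d : G) (_ : Subgroup.zpowers d = D.1), (h d : ℚ)

/-- Rational class functions on the elements of finite order that are invariant under powers. -/
def S_Comb : Prop :=
  ∀ (G : Type) [Group G] (β : G → ℚ) (P : Finset G), (∀ x y, IsConj x y → β x = β y) →
    (∀ g, orderOf g = 0 → β g = 0) →
    (∀ g (k : ℕ), 0 < orderOf g → k.Coprime (orderOf g) → β (g ^ k) = β g) →
    (∀ g, β g ≠ 0 → ∃ x ∈ P, IsConj x g) →
    ∃ (M : ℕ) (v : ColK ℚ G), 0 < M ∧ v ∈ AvgSpan G ∧ ∀ g, TC ℚ (cind g) v = M * β g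

end

end Pool.Agent.Y778.NK
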