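import Pool.Agent.Y778.NK.K0Api
import Pool.Agent.H23R2.GrpTrace

/-!
# The Hattori–Stallings trace on `K₀(R[G])`
-/

open Matrix

namespace Pool.Agent.Y778.NK

open Pool.Agent.H23R2.Cyc (ell ell_single ell_mul_comm ell_eq_sum)

noncomputable section

variable {R : Type} [CommRing R] {G : Type} [Group G]

/-- class functions -/
def IsCls (h : G → ℤ) : Prop := ∀ x y, h (x * y) = h (y * x)

theorem IsCls.conj {h : G → ℤ} (hh : IsCls h) {x y : G} (hxy : IsConj x y) : h x = h y := by
  obtain ⟨c, rfl⟩ := isConj_iff.1 hxy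
  rw [hh (c * x) c⁻¹, ← mul_assoc, inv_mul_cancel, one_mul]

/-- the value of a function on the group on a matrix -/
def hs (R : Type) [CommRing R] (h : G → ℤ) {ι : Type} [Fintype ι] (e : Matrix ι ι (MonoidAlgebra R G)) : R :=
  ∑ i, ell (fun g => (h g : R)) (e i i)

theorem cls_cast {h : G → ℤ} (hh : IsCls h) (x y : G) : ((h (x * y) : ℤ) : R) = (h (y * x) : ℤ) := by
  rw [hh]

theorem hs_comm {h : G → ℤ} (hh : IsCls h) {ι κ : Type} [Fintype ι] [Fintype κ]
    (u : Matrix ι κ (MonoidAlgebra R G)) (v : Matrix κ ι (MonoidAlgebra R G)) :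
    hs R h (u * v) = hs R h (v * u) := by
  unfold hs
  simp only [Matrix.mul_apply, map_sum]
  rw [Finset.sum_comm]
  exact Finset.sum_congr rfl fun i _ => Finset.sum_congr rfl fun j _ =>
    ell_mul_comm _ (cls_cast hh) _ _

theorem trace_exists (R : Type) [CommRing R] (h : G → ℤ) (hh : IsCls h) :
    ∃ T : K0 (MonoidAlgebra R G) →+ R, ∀ (n : ℕ) (e : IdMat (MonoidAlgebra R G) n),
      T (K0.mk e) = hs R h (e : Matrix (Fin n) (Fin n) (MonoidAlgebra R G)) := by
  apply K0.lift_exists (fun n e => hs R h e)
  · intro m n e f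
    unfold hs
    rw [← finSumFinEquiv.sum_comp (fun i => ell (fun g => (h g : R))
      (Matrix.reindex finSumFinEquiv finSumFinEquiv (fromBlocks e 0 0 f) i i)),
      Fintype.sum_sum_type]
    simp
  · intro m n u v
    exact hs_comm hh u v

open Classical in
/-- the trace of a class function on `K₀(R[G])` (zero for other functions) -/
def T (R : Type) [CommRing R] (h : G → ℤ) : K0 (MonoidAlgebra R G) →+ R :=
  if hh : IsCls h then (trace_exists R h hh).choose else 0

theorem T_mk {h : G → ℤ} (hh : IsCls h) {n : ℕ} (e : IdMat (MonoidAlgebra R G) n) :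
    T R h (K0.mk e) = hs R h (e : Matrix (Fin n) (Fin n) (MonoidAlgebra R G)) := by
  unfold T
  rw [dif_pos hh]
  exact (trace_exists R h hh).choose_spec n e

theorem T_cl0 {h : G → ℤ} (hh : IsCls h) {ι : Type} [Fintype ι] [DecidableEq ι]
    {e : Matrix ι ι (MonoidAlgebra R G)} (he : e * e = e) : T R h (cl0 e he) = hs R h e := by
  unfold cl0
  rw [T_mk hh]
  unfold hs
  rw [← (Fintype.equivFin ι).sum_comp]
  simp

theorem T_not {h : G → ℤ} (hh : ¬ IsCls h) (x : K0 (MonoidAlgebra R G)) : T R h x = 0 := by
  unfold T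
  rw [dif_neg hh]
  rfl

theorem ell_mapDomain' {H : Type} [Group H] (φ : H →* G) (f : G → R) (x : MonoidAlgebra R H) :
    ell f (MonoidAlgebra.mapDomainRingHom R φ x) = ell (fun g => f (φ g)) x := by
  induction x using MonoidAlgebra.induction_linear with
  | zero => simp
  | add x y hx hy => simp only [map_add, hx, hy]
  | single g r => simp [ell_single]

/-- traces and group homomorphisms -/
theorem T_map {H : Type} [Group H] (φ : H →* G) {h : G → ℤ} (hh : IsCls h)
    (x : K0 (MonoidAlgebra R H)) :
    T R h (K0.map (MonoidAlgebra.mapDomainRingHom R φ) x) = T R (fun g => h (φ g)) x := by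
  have hh' : IsCls fun g => h (φ g) := fun x y => by
    show h (φ (x * y)) = h (φ (y * x))
    rw [map_mul, map_mul, hh]
  induction x using K0.induction with
  | hadd x y hx hy => rw [map_add, map_add, map_add, hx, hy]
  | hneg x hx => rw [map_neg, map_neg, map_neg, hx]
  | hcl n e he =>
    rw [K0map_cl0, T_cl0 hh, T_cl0 hh']
    unfold hs
    refine Finset.sum_congr rfl fun i _ => ?_
    rw [Matrix.map_apply]
    exact ell_mapDomain' φ _ _

theorem ell_coef {S : Type} [CommRing S] (θ : R →+* S) (h : G → ℤ) (x : MonoidAlgebra R G) :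
    ell (fun g => (h g : S)) (MonoidAlgebra.mapRingHom G θ x) =
      θ (ell (fun g => (h g : R)) x) := by
  induction x using MonoidAlgebra.induction_linear with
  | zero => simp
  | add x y hx hy => simp only [map_add, hx, hy]
  | single g r =>
    have h1 : MonoidAlgebra.mapRingHom G θ (MonoidAlgebra.single g r) =
      MonoidAlgebra.single g (θ r) := by simp
    rw [h1, ell_single, ell_single, map_mul, map_intCast]

/-- traces and change of coefficients -/
theorem T_coef {S : Type} [CommRing S] (θ : R →+* S) (h : G → ℤ) (x : K0 (MonoidAlgebra R G)) :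
    T S h (K0.map (MonoidAlgebra.mapRingHom G θ) x) = θ (T R h x) := by
  by_cases hh : IsCls h
  · induction x using K0.induction with
    | hadd x y hx hy => rw [map_add, map_add, map_add, map_add, hx, hy]
    | hneg x hx => rw [map_neg, map_neg, map_neg, map_neg, hx]
    | hcl n e he =>
      rw [K0map_cl0, T_cl0 hh, T_cl0 hh]
      unfold hs
      rw [map_sum]
      refine Finset.sum_congr rfl fun i _ => ?_
      rw [Matrix.map_apply]
      exact ell_coef θ h _
  · rw [T_not hh, T_not hh, map_zero]

open Classical in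
/-- the indicator function of a conjugacy class -/
def cind (g : G) : G → ℤ := fun y => if IsConj g y then 1 else 0

theorem cind_cls (g : G) : IsCls (cind g) := by
  classical
  intro x y
  have hxy : IsConj (x * y) (y * x) := isConj_iff.2 ⟨y, by group⟩
  have : IsConj g (x * y) ↔ IsConj g (y * x) :=
    ⟨fun h => h.trans hxy, fun h => h.trans hxy.symm⟩
  unfold cind
  by_cases h : IsConj g (x * y)
  · rw [if_pos h, if_pos (this.1 h)]
  · rw [if_neg h, if_neg fun h' => h (this.2 h')]

end

end Pool.Agent.Y778.NK
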